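import Mathlib
import Pool.Agent.R405.Tang
import Pool.Agent.R404.TC.Loc1

/-!
The tangent hyperplane at a point, with contact of arbitrary order.
-/

set_option autoImplicit false
set_option linter.unusedSectionVars false

open Finset

namespace Pool.Agent.H7V1

open MvPolynomial
open Pool.Agent.W180.OP (nrm le_nrm nrm_pos nrm_nonneg exists_nrm lam lam_eq cs taylor nrm_le
  eval_smul_hom lam_smul bounded)
open Pool.Agent.R405 (lff lff_hom eval_lff tg tg_self)

variable {K : Type} [Field K] {n : ℕ}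

/-- the distance of two points -/
noncomputable def dst (f : AbsoluteValue K ℝ) (x y : Fin n → K) : ℝ :=
  ⨆ p : Fin n × Fin n, f (x p.1 * y p.2 - x p.2 * y p.1)

/-- the local height of the point `y` -/
noncomputable def ly (f : AbsoluteValue K ℝ) (y x : Fin n → K) : ℝ :=
  Real.log (nrm f x) + Real.log (nrm f y) - Real.log (dst f x y)

/-- the restriction to the line through `y` with direction `z` -/
noncomputable def pol (y z : Fin n → K) (F : MvPolynomial (Fin n) K) : Polynomial K :=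
  aeval (fun b => Polynomial.C (y b) + Polynomial.X * Polynomial.C (z b)) F

/-- the tangent hyperplane section has multiplicity at least `m` at `y` -/
def Contact (F : MvPolynomial (Fin n) K) (y : Fin n → K) (m : ℕ) : Prop :=
  ∀ z : Fin n → K, ∑ b, tg y F b * z b = 0 → Polynomial.X ^ m ∣ pol y z F

theorem le_dst (f : AbsoluteValue K ℝ) (x y : Fin n → K) (a b : Fin n) :
    f (x a * y b - x b * y a) ≤ dst f x y :=
  le_ciSup (f := fun p : Fin n × Fin n => f (x p.1 * y p.2 - x p.2 * y p.1))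
    (Set.finite_range _).bddAbove (a, b)

theorem dst_smul (f : AbsoluteValue K ℝ) (x y : Fin n → K) (c : K) :
    dst f (c • x) y = f c * dst f x y := by
  unfold dst
  rw [Real.mul_iSup_of_nonneg (f.nonneg c)]
  refine iSup_congr fun p => ?_
  rw [← map_mul]
  congr 1
  simp only [Pi.smul_apply, smul_eq_mul]
  ring

theorem nrm_smul (f : AbsoluteValue K ℝ) (x : Fin n → K) (c : K) :
    nrm f (c • x) = f c * nrm f x := by
  unfold nrm
  rw [Real.mul_iSup_of_nonneg (f.nonneg c)]
  refine iSup_congr fun p => ?_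
  rw [← map_mul]
  rfl

theorem ly_smul (f : AbsoluteValue K ℝ) {x y : Fin n → K} {c : K} (hc : c ≠ 0) (hx : x ≠ 0)
    (hd : 0 < dst f x y) : ly f y (c • x) = ly f y x := by
  unfold ly
  rw [nrm_smul, dst_smul, Real.log_mul (f.pos_iff.2 hc).ne' (nrm_pos f hx).ne',
    Real.log_mul (f.pos_iff.2 hc).ne' hd.ne']
  ring

theorem dst_le (f : AbsoluteValue K ℝ) (x y : Fin n → K) :
    dst f x y ≤ 2 * (nrm f x * nrm f y) := by
  have h0 : 0 ≤ 2 * (nrm f x * nrm f y) := by
    have := nrm_nonneg f x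
    have := nrm_nonneg f y
    positivity
  refine Real.iSup_le (fun p => ?_) h0
  have h1 : f (x p.1 * y p.2 - x p.2 * y p.1) ≤ f (x p.1 * y p.2) + f (x p.2 * y p.1) := by
    rw [sub_eq_add_neg]
    refine (f.add_le _ _).trans (le_of_eq ?_)
    rw [f.map_neg]
  rw [map_mul, map_mul] at h1
  have h2 := mul_le_mul (le_nrm f x p.1) (le_nrm f y p.2) (f.nonneg _) (nrm_nonneg f x)
  have h3 := mul_le_mul (le_nrm f x p.2) (le_nrm f y p.1) (f.nonneg _) (nrm_nonneg f x)
  linarith

theorem ly_ge (f : AbsoluteValue K ℝ) {x y : Fin n → K} (hx : x ≠ 0) (hy : y ≠ 0)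
    (hd : 0 < dst f x y) : - Real.log 2 ≤ ly f y x := by
  have h1 := Real.log_le_log hd (dst_le f x y)
  have hx' := nrm_pos f hx
  have hy' := nrm_pos f hy
  rw [Real.log_mul (by norm_num) (by positivity), Real.log_mul hx'.ne' hy'.ne'] at h1
  unfold ly
  linarith

theorem eval_pol (y z : Fin n → K) (F : MvPolynomial (Fin n) K) (s : K) :
    (pol y z F).eval s = eval (y + s • z) F := by
  unfold pol
  rw [← Polynomial.coe_evalRingHom, aeval_def, hom_eval₂]
  have h1 : (Polynomial.evalRingHom s).comp (algebraMap K (Polynomial K)) = RingHom.id K := by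
    ext a
    simp
  rw [h1]
  show eval _ F = _
  congr 1
  congr 1
  funext b
  rw [Pi.add_apply, Pi.smul_apply, smul_eq_mul, Polynomial.coe_evalRingHom, Polynomial.eval_add,
    Polynomial.eval_mul, Polynomial.eval_C, Polynomial.eval_X, Polynomial.eval_C]

/-- the polynomials `pol` depend polynomially on the direction -/
theorem pol_map (y : Fin n → K) (F : MvPolynomial (Fin n) K) :
    ∃ Q : Polynomial (MvPolynomial (Fin n) K), ∀ z : Fin n → K, pol y z F = Q.map (eval z) := by
  refine ⟨aeval (fun b => Polynomial.C (C (y b)) + Polynomial.X * Polynomial.C (X b)) F,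
    fun z => ?_⟩
  unfold pol
  rw [← Polynomial.coe_mapRingHom, aeval_def, aeval_def, hom_eval₂]
  congr 1
  · ext a
    simp
  · funext b
    simp

theorem pol_bound (f : AbsoluteValue K ℝ) (y : Fin n → K) (F : MvPolynomial (Fin n) K) :
    ∃ (D : ℕ) (B : ℝ), 0 ≤ B ∧ ∀ z : Fin n → K, nrm f z ≤ 1 → (pol y z F).natDegree ≤ D ∧
      ∀ j, f ((pol y z F).coeff j) ≤ B := by
  obtain ⟨Q, hQ⟩ := pol_map y F
  choose B hB0 hB using fun j => bounded f (Q.coeff j) 1 zero_le_one
  refine ⟨Q.natDegree, ∑ j ∈ range (Q.natDegree + 1), B j, Finset.sum_nonneg fun j _ => hB0 j,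
    fun z hz => ⟨?_, fun j => ?_⟩⟩
  · rw [hQ]
    exact Polynomial.natDegree_map_le
  · rw [hQ, Polynomial.coeff_map]
    by_cases hj : j ≤ Q.natDegree
    · exact (hB j z hz).trans (Finset.single_le_sum (f := B) (fun j _ => hB0 j)
        (Finset.mem_range.2 (by omega)))
    · rw [Polynomial.coeff_eq_zero_of_natDegree_lt (by omega), map_zero, map_zero]
      exact Finset.sum_nonneg fun j _ => hB0 j

theorem exists_dir (f : AbsoluteValue K ℝ) (u : Fin n → K) :
    ∃ (θ : K) (z : Fin n → K), f θ = nrm f u ∧ nrm f z ≤ 1 ∧ u = θ • z ∧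
      ∀ g : Fin n → K, ∑ b, g b * u b = 0 → ∑ b, g b * z b = 0 := by
  by_cases hu : u = 0
  · refine ⟨0, 0, ?_, ?_, ?_, ?_⟩
    · rw [hu, map_zero]
      apply le_antisymm (nrm_nonneg _ _)
      exact nrm_le le_rfl fun j => by simp
    · exact nrm_le zero_le_one fun j => by simp
    · rw [hu, zero_smul]
    · intro g _
      simp
  · have hn : 0 < n := by
      obtain ⟨j, _⟩ := Function.ne_iff.1 hu
      exact Fin.pos j
    obtain ⟨b, hb⟩ := exists_nrm f hn u
    have hpos := nrm_pos f hu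
    have hub : u b ≠ 0 := by
      intro h
      rw [h, map_zero] at hb
      exact hpos.ne hb
    refine ⟨u b, (u b)⁻¹ • u, hb, ?_, ?_, ?_⟩
    · rw [nrm_smul, map_inv₀, hb, inv_mul_cancel₀ hpos.ne']
    · rw [smul_smul, mul_inv_cancel₀ hub, one_smul]
    · intro g hg
      have : ∑ c, g c * ((u b)⁻¹ • u) c = (u b)⁻¹ * ∑ c, g c * u c := by
        rw [Finset.mul_sum]
        refine Finset.sum_congr rfl fun c _ => ?_
        rw [Pi.smul_apply, smul_eq_mul]
        ring
      rw [this, hg, mul_zero]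

/-- the values in the tangent hyperplane -/
theorem contact_bound (f : AbsoluteValue K ℝ) {F : MvPolynomial (Fin n) K} {d : ℕ}
    (hF : F.IsHomogeneous d) (y : Fin n → K) {m : ℕ} (hc : Contact F y m) {κ R : ℝ} (hκ : 0 < κ)
    (hR : 0 ≤ R) :
    ∃ B : ℝ, 0 ≤ B ∧ ∀ (N : K) (u : Fin n → K), κ ≤ f N → f N ≤ R →
      ∑ b, tg y F b * u b = 0 → nrm f u ≤ κ → f (eval (N • y + u) F) ≤ B * nrm f u ^ m := by
  obtain ⟨D, B, hB0, hB⟩ := pol_bound f y F
  refine ⟨R ^ d * ((κ ^ m)⁻¹ * ((D + 1) * B)), by positivity, fun N u hN1 hN2 hu hu1 => ?_⟩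
  obtain ⟨θ, z, hθ, hz, huz, hg⟩ := exists_dir f u
  have hz0 := hg _ hu
  have hfN : 0 < f N := hκ.trans_le hN1
  have hN0 : N ≠ 0 := f.pos_iff.1 hfN
  obtain ⟨r, hr⟩ := hc z hz0
  obtain ⟨hdeg, hco⟩ := hB z hz
  have hrc : ∀ j, f (r.coeff j) ≤ B := by
    intro j
    have h1 := hco (j + m)
    rw [hr, mul_comm, Polynomial.coeff_mul_X_pow] at h1
    exact h1
  have hrd : r.natDegree ≤ D := by
    by_cases hr0 : r = 0
    · rw [hr0]
      simp
    · have h1 : (pol y z F).natDegree = m + r.natDegree := by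
        rw [hr, Polynomial.natDegree_mul (pow_ne_zero _ Polynomial.X_ne_zero) hr0,
          Polynomial.natDegree_X_pow]
      omega
  set s : K := θ / N with hs
  have hs1 : f s ≤ 1 := by
    rw [hs, map_div₀, div_le_one hfN, hθ]
    exact hu1.trans hN1
  have e1 : N • y + u = N • (y + s • z) := by
    rw [smul_add, smul_smul, hs, mul_div_cancel₀ _ hN0, ← huz]
  have e2 : eval (N • y + u) F = N ^ d * (s ^ m * r.eval s) := by
    rw [e1, eval_smul_hom F hF, ← eval_pol, hr, Polynomial.eval_mul, Polynomial.eval_pow,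
      Polynomial.eval_X]
  have h3 : f (r.eval s) ≤ (D + 1) * B := by
    rw [Polynomial.eval_eq_sum_range' (n := D + 1) (by omega)]
    refine (f.sum_le _ _).trans ?_
    refine (Finset.sum_le_sum (g := fun _ => B) fun j _ => ?_).trans (le_of_eq ?_)
    · rw [map_mul, map_pow]
      exact (mul_le_mul (hrc j) (pow_le_one₀ (f.nonneg _) hs1) (by positivity) hB0).trans
        (le_of_eq (mul_one _))
    · rw [Finset.sum_const, Finset.card_range, nsmul_eq_mul]
      push_cast
      ring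
  have h4 : f s ^ m ≤ (κ ^ m)⁻¹ * nrm f u ^ m := by
    rw [hs, map_div₀, hθ, div_pow, div_eq_inv_mul]
    refine mul_le_mul_of_nonneg_right ?_ (pow_nonneg (nrm_nonneg _ _) _)
    exact inv_anti₀ (by positivity) (pow_le_pow_left₀ hκ.le hN1 _)
  rw [e2, map_mul, map_mul, map_pow, map_pow]
  have h5 : f N ^ d ≤ R ^ d := pow_le_pow_left₀ (f.nonneg _) hN2 _
  have h6 : f s ^ m * f (r.eval s) ≤ (κ ^ m)⁻¹ * nrm f u ^ m * ((D + 1) * B) :=
    mul_le_mul h4 h3 (f.nonneg _) (by have := nrm_nonneg f u; positivity)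
  calc f N ^ d * (f s ^ m * f (r.eval s)) ≤ R ^ d * ((κ ^ m)⁻¹ * nrm f u ^ m * ((D + 1) * B)) :=
        mul_le_mul h5 h6 (mul_nonneg (pow_nonneg (f.nonneg _) _) (f.nonneg _)) (by positivity)
    _ = _ := by ring

theorem lip (f : AbsoluteValue K ℝ) (P : MvPolynomial (Fin n) K) (R : ℝ) (hR : 1 ≤ R) :
    ∃ B : ℝ, 0 ≤ B ∧ ∀ z u : Fin n → K, nrm f z ≤ R → nrm f u ≤ 1 →
      f (eval (z + u) P - eval z P) ≤ B * nrm f u := by
  obtain ⟨B, hB0, hB⟩ := taylor f P R (by linarith)
  choose A hA0 hA using fun b => bounded f (pderiv b P) R (by linarith)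
  refine ⟨B + ∑ b, A b, add_nonneg hB0 (Finset.sum_nonneg fun b _ => hA0 b), fun z u hz hu => ?_⟩
  have h1 := hB z u hz (hu.trans hR)
  have hu0 := nrm_nonneg f u
  have e1 : eval (z + u) P - eval z P = (eval (z + u) P - eval z P -
    ∑ b, u b * eval z (pderiv b P)) + ∑ b, u b * eval z (pderiv b P) := by ring
  rw [e1]
  refine (f.add_le _ _).trans ?_
  have h2 : f (∑ b, u b * eval z (pderiv b P)) ≤ (∑ b, A b) * nrm f u := by
    refine (f.sum_le _ _).trans ?_
    rw [Finset.sum_mul]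
    refine Finset.sum_le_sum fun b _ => ?_
    rw [map_mul, mul_comm]
    exact mul_le_mul (hA b z hz) (le_nrm f u b) (f.nonneg _) (hA0 b)
  have h3 : B * nrm f u ^ 2 ≤ B * nrm f u := by
    refine mul_le_mul_of_nonneg_left ?_ hB0
    nlinarith
  rw [add_mul]
  linarith

end Pool.Agent.H7V1
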