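import Mathlib
import Pool.Agent.H7V1.Pt
import Pool.Agent.R405.SchV

/-!
Selection of a basis of linear forms; normal crossings.
-/

set_option autoImplicit false
set_option linter.unusedSectionVars false

open Finset

namespace Pool.Agent.H7V1

open MvPolynomial
open Pool.Agent.W180.OP (nrm le_nrm nrm_pos nrm_nonneg exists_nrm lam lam_eq cs taylor nrm_le
  eval_smul_hom lam_smul bounded min_lam)
open Pool.Agent.R405 (lff lff_hom eval_lff tg tg_self dot)

variable {K : Type} [Field K] {n q : ℕ}

/-- strict normal crossings -/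
def NC (F : Fin q → MvPolynomial (Fin n) K) : Prop :=
  ∀ (L : Type) [Field L] [Algebra K L] (x : Fin n → L), x ≠ 0 →
    LinearIndependent L (fun (j : {j : Fin q // aeval x (F j) = 0}) (i : Fin n) =>
      aeval x (pderiv i (F j)))

theorem NC.at {F : Fin q → MvPolynomial (Fin n) K} (hS : NC F) {y : Fin n → K} (hy : y ≠ 0) :
    LinearIndepOn K (fun i => tg y (F i)) {i | eval y (F i) = 0} := by
  have h := hS K y hy
  have h2 : ∀ (p : MvPolynomial (Fin n) K), aeval y p = eval y p := fun p =>
    DFunLike.congr_fun (coe_aeval_eq_eval y) p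
  rw [LinearIndepOn]
  have h3 := h.comp (fun i : {i | eval y (F i) = 0} =>
    (⟨i.1, by rw [h2]; exact i.2⟩ : {j : Fin q // aeval y (F j) = 0})) (by
      intro i j hij
      apply Subtype.ext
      exact congrArg (fun t => t.1) hij)
  have h4 : (fun i : {i | eval y (F i) = 0} => tg y (F i.1)) =
      (fun (j : {j : Fin q // aeval y (F j) = 0}) (i : Fin n) => aeval y (pderiv i (F j))) ∘
      (fun i : {i | eval y (F i) = 0} =>
        (⟨i.1, by rw [h2]; exact i.2⟩ : {j : Fin q // aeval y (F j) = 0})) := by
    funext i b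
    show eval y (pderiv b (F i.1)) = aeval y (pderiv b (F i.1))
    rw [h2]
  rw [h4]
  exact h3

/-- the gradient of a linear form is constant -/
theorem grad_const {L : Type} [Field L] [Algebra K L] {F : MvPolynomial (Fin n) K}
    (hF : F.IsHomogeneous 1) (z : Fin n → L) (b : Fin n) :
    aeval z (pderiv b F) = algebraMap K L (tg 0 F b) := by
  have h1 : (pderiv b F).IsHomogeneous 0 := hF.pderiv
  have h2 : pderiv b F = C (coeff 0 (pderiv b F)) :=
    totalDegree_eq_zero_iff_eq_C.1 (Nat.le_zero.1 h1.totalDegree_le)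
  unfold tg
  rw [h2, aeval_C, eval_C]

theorem tg_const {F : MvPolynomial (Fin n) K} (hF : F.IsHomogeneous 1) (y : Fin n → K) :
    tg y F = tg 0 F := by
  funext b
  have h := grad_const hF y b
  have h2 : ∀ (p : MvPolynomial (Fin n) K), aeval y p = eval y p := fun p =>
    DFunLike.congr_fun (coe_aeval_eq_eval y) p
  rw [h2] at h
  exact h

theorem aeval_lin {L : Type} [Field L] [Algebra K L] {F : MvPolynomial (Fin n) K}
    (hF : F.IsHomogeneous 1) (x : Fin n → L) :
    aeval x F = ∑ b, algebraMap K L (tg 0 F b) * x b := by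
  have h := hF.sum_X_mul_pderiv
  have h2 := congrArg (aeval x) h
  simp only [map_sum, map_mul, aeval_X, one_smul] at h2
  rw [← h2]
  exact Finset.sum_congr rfl fun b _ => by rw [grad_const hF, mul_comm]

theorem eval_lin {F : MvPolynomial (Fin n) K} (hF : F.IsHomogeneous 1) (x y : Fin n → K) :
    eval x F = dot (tg y F) x := by
  have h2 : ∀ (p : MvPolynomial (Fin n) K), aeval x p = eval x p := fun p =>
    DFunLike.congr_fun (coe_aeval_eq_eval x) p
  rw [← h2, aeval_lin hF, tg_const hF y]
  rfl

/-- the forms through `y` -/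
def mv (y : Fin n → K) (a b : Fin n) : Fin n → K := Pi.single b (y a) - Pi.single a (y b)

theorem dot_single (x : Fin n → K) (b : Fin n) (c : K) :
    dot (Pi.single b c) x = c * x b := by
  classical
  unfold dot
  rw [Finset.sum_eq_single b]
  · rw [Pi.single_eq_same]
  · intro j _ hj
    rw [Pi.single_eq_of_ne hj, zero_mul]
  · intro h
    exact absurd (Finset.mem_univ _) h

theorem dot_mv (y x : Fin n → K) (a b : Fin n) : dot (mv y a b) x = x b * y a - x a * y b := by
  have h : dot (mv y a b) x = dot (Pi.single b (y a)) x - dot (Pi.single a (y b)) x := by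
    unfold dot mv
    rw [← Finset.sum_sub_distrib]
    exact Finset.sum_congr rfl fun j _ => by rw [Pi.sub_apply, sub_mul]
  rw [h, dot_single, dot_single]
  ring

/-- the value at a linear form -/
noncomputable def ph (f : AbsoluteValue K ℝ) (x v : Fin n → K) : ℝ :=
  Real.log (nrm f x) - Real.log (f (dot v x))

theorem ph_low (f : AbsoluteValue K ℝ) {x v : Fin n → K} (hx : x ≠ 0) (hv : dot v x ≠ 0) :
    - |Real.log (∑ b, f (v b))| ≤ ph f x v := by
  have h1 : f (dot v x) ≤ (∑ b, f (v b)) * nrm f x := by
    unfold dot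
    rw [Finset.sum_mul]
    refine (f.sum_le _ _).trans (Finset.sum_le_sum fun b _ => ?_)
    rw [map_mul]
    exact mul_le_mul_of_nonneg_left (le_nrm f x b) (f.nonneg _)
  have h2 := f.pos_iff.2 hv
  have h3 := nrm_pos f hx
  have h4 : 0 < ∑ b, f (v b) := by
    by_contra hcon
    have h5 : ∑ b, f (v b) ≤ 0 := not_lt.1 hcon
    have h6 := mul_nonpos_of_nonpos_of_nonneg h5 h3.le
    linarith
  have h5 := Real.log_le_log h2 h1
  rw [Real.log_mul h4.ne' h3.ne'] at h5
  have h6 := le_abs_self (Real.log (∑ b, f (v b)))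
  unfold ph
  linarith

theorem ph_single (f : AbsoluteValue K ℝ) {x : Fin n → K} (b : Fin n)
    (hb : dot (Pi.single b (1 : K)) x ≠ 0) : 0 ≤ ph f x (Pi.single b 1) := by
  rw [dot_single, one_mul] at hb
  unfold ph
  rw [dot_single, one_mul]
  have h1 := Real.log_le_log (f.pos_iff.2 hb) (le_nrm f x b)
  linarith

theorem ph_mv (f : AbsoluteValue K ℝ) {x y : Fin n → K} (a b : Fin n)
    (h : dot (mv y a b) x ≠ 0) : ly f y x - Real.log (nrm f y) ≤ ph f x (mv y a b) := by
  unfold ph ly
  rw [dot_mv] at h ⊢
  have h1 := Real.log_le_log (f.pos_iff.2 h) (le_dst f x y b a)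
  linarith

/-- extension of an independent set to a basis -/
theorem sel (A W : Finset (Fin n → K)) (hAW : A ⊆ W)
    (hA : LinearIndepOn K id (A : Set (Fin n → K)))
    (hW : Submodule.span K (W : Set (Fin n → K)) = ⊤) :
    ∃ T : Finset (Fin n → K), A ⊆ T ∧ T ⊆ W ∧ (0 : Fin n → K) ∉ T ∧ T.card = n ∧
      ∃ β : Fin n → (Fin n → K), (∀ a, β a ∈ T) ∧ (Matrix.of β).det ≠ 0 ∧
        ∀ φ : (Fin n → K) → ℝ, ∑ a, φ (β a) = ∑ v ∈ T, φ v := by
  classical
  obtain ⟨b, hb1, hb2, hb3, hb4⟩ := exists_linearIndepOn_id_extension hA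
    (Finset.coe_subset.2 hAW)
  have hfin : b.Finite := W.finite_toSet.subset hb1
  set T := hfin.toFinset with hT
  have hTb : (T : Set (Fin n → K)) = b := hfin.coe_toFinset
  have hli : LinearIndependent K (fun v : T => (v : Fin n → K)) := by
    have h1 : LinearIndepOn K id (T : Set (Fin n → K)) := by
      rw [hTb]
      exact hb4
    exact h1
  have hspan : Submodule.span K (Set.range (fun v : T => (v : Fin n → K))) = ⊤ := by
    have h1 : Set.range (fun v : T => (v : Fin n → K)) = b := by
      rw [← hTb]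
      ext v
      simp
    rw [h1, eq_top_iff, ← hW, Submodule.span_le]
    exact hb3
  have hcard : Fintype.card T = n := by
    have h1 := Module.finrank_eq_card_basis (Module.Basis.mk hli hspan.ge)
    rw [Module.finrank_fin_fun] at h1
    exact h1.symm
  let e : Fin n ≃ T := (Fintype.equivFinOfCardEq hcard).symm
  refine ⟨T, ?_, ?_, ?_, (Fintype.card_coe T).symm.trans hcard, fun a => (e a).1,
    fun a => (e a).2, ?_, fun φ => ?_⟩
  · rw [← Finset.coe_subset, hTb]
    exact hb2
  · rw [← Finset.coe_subset, hTb]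
    exact hb1
  · intro h0
    exact hli.ne_zero ⟨0, h0⟩ rfl
  · have h1 : LinearIndependent K (fun a => ((e a : T) : Fin n → K)) :=
      hli.comp _ e.injective
    have h2 := (Matrix.linearIndependent_rows_iff_isUnit
      (A := Matrix.of fun a => ((e a : T) : Fin n → K))).1 h1
    rw [Matrix.isUnit_iff_isUnit_det] at h2
    exact h2.ne_zero
  · rw [Equiv.sum_comp e (fun v : T => φ v.1)]
    exact Finset.sum_coe_sort T φ

/-- the component and the point are not both close -/
theorem far_comp (f : AbsoluteValue K ℝ) {F : MvPolynomial (Fin n) K} {d : ℕ}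
    (hF : F.IsHomogeneous d) {y : Fin n → K} (hy : y ≠ 0) (hFy : eval y F ≠ 0) :
    ∃ B : ℝ, ∀ x : Fin n → K, x ≠ 0 → eval x F ≠ 0 →
      (∀ a b, mv y a b ≠ 0 → dot (mv y a b) x ≠ 0) → lam f d F x ≤ B ∨ ly f y x ≤ B := by
  classical
  obtain ⟨a, ha⟩ := Function.ne_iff.1 hy
  have hya : y a ≠ 0 := ha
  have hn : 0 < n := Fin.pos a
  have hne : ∀ b, b ≠ a → mv y a b ≠ 0 := by
    intro b hb h
    have := congrFun h b
    rw [mv, Pi.sub_apply, Pi.single_eq_same, Pi.single_eq_of_ne hb, sub_zero] at this
    exact hya this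
  have haev : ∀ (L : Type) [Field L] [Algebra K L] (x : Fin n → L) (v : Fin n → K),
      aeval x (lff v) = ∑ j, algebraMap K L (v j) * x j := by
    intro L _ _ x v
    simp [lff]
  have hamv : ∀ (L : Type) [Field L] [Algebra K L] (x : Fin n → L) (b : Fin n),
      aeval x (lff (mv y a b)) = algebraMap K L (y a) * x b - algebraMap K L (y b) * x a := by
    intro L _ _ x b
    rw [haev]
    have h1 : ∀ j, algebraMap K L (mv y a b j) * x j =
        (if j = b then algebraMap K L (y a) * x j else 0) -
        (if j = a then algebraMap K L (y b) * x j else 0) := by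
      intro j
      rw [mv, Pi.sub_apply, map_sub, sub_mul]
      congr 1
      · by_cases h : j = b
        · subst h
          rw [Pi.single_eq_same, if_pos rfl]
        · rw [Pi.single_eq_of_ne h, if_neg h, map_zero, zero_mul]
      · by_cases h : j = a
        · subst h
          rw [Pi.single_eq_same, if_pos rfl]
        · rw [Pi.single_eq_of_ne h, if_neg h, map_zero, zero_mul]
    simp only [h1, Finset.sum_sub_distrib, Finset.sum_ite_eq', Finset.mem_univ, if_true]
  obtain ⟨C, hC⟩ := min_lam (ι := Option {b : Fin n // b ≠ a}) hn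
    (fun o => o.elim F fun b => lff (mv y a b.1)) (fun o => o.elim d fun _ => 1) (by
      rintro (_ | b)
      · exact hF
      · exact lff_hom _) (by
      intro L _ _ x hx
      have h0 : aeval x F = 0 := hx none
      have h1 : ∀ b, b ≠ a → algebraMap K L (y a) * x b = algebraMap K L (y b) * x a := by
        intro b hb
        have h2 : aeval x (lff (mv y a b)) = 0 := hx (some ⟨b, hb⟩)
        rw [hamv, sub_eq_zero] at h2
        exact h2
      have hya' : algebraMap K L (y a) ≠ 0 := by
        rw [Ne, map_eq_zero]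
        exact hya
      have h2 : x = (x a / algebraMap K L (y a)) • fun b => algebraMap K L (y b) := by
        funext b
        rw [Pi.smul_apply, smul_eq_mul, div_mul_eq_mul_div, eq_div_iff hya']
        by_cases hb : b = a
        · subst hb
          rfl
        · rw [mul_comm (x b), h1 b hb, mul_comm]
      rw [h2, Pool.Agent.R404.TC.aeval_smul_hom hF, Pool.Agent.R404.TC.aeval_pt] at h0
      have h3 : algebraMap K L (eval y F) ≠ 0 := by
        rw [Ne, map_eq_zero]
        exact hFy
      have h4 : x a / algebraMap K L (y a) = 0 := by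
        by_contra h5
        exact mul_ne_zero (pow_ne_zero _ h5) h3 h0
      rw [h2, h4, zero_smul]) f
  refine ⟨max C (C + Real.log (nrm f y)), fun x hx hFx hmx => ?_⟩
  obtain ⟨o, ho⟩ := hC x hx (by
    rintro (_ | b)
    · exact hFx
    · show eval x (lff (mv y a b.1)) ≠ 0
      rw [eval_lff]
      exact hmx a b.1 (hne b.1 b.2))
  rcases o with _ | b
  · left
    exact le_trans ho (le_max_left _ _)
  · right
    have h1 : lam f 1 (lff (mv y a b.1)) x ≤ C := ho
    have h2 := hmx a b.1 (hne b.1 b.2)
    rw [lam_eq f 1 _ hx (by rw [eval_lff]; exact h2), eval_lff] at h1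
    have h3 := ph_mv f a b.1 h2
    unfold ph at h3
    have h4 : Real.log (f (dot (mv y a b.1) x)) = Real.log (f (∑ j, mv y a b.1 j * x j)) := rfl
    refine le_trans ?_ (le_max_right _ _)
    push_cast at h1
    linarith

end Pool.Agent.H7V1
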