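import Mathlib
import Pool.Agent.H7V1.Pt

/-!
The tangent hyperplane at a point, with contact of arbitrary order.
-/

set_option autoImplicit false
set_option linter.unusedSectionVars false

open Finset

namespace Pool.Agent.H7V1

open MvPolynomial
open Pool.Agent.W180.OP (nrm le_nrm nrm_pos nrm_nonneg exists_nrm lam lam_eq cs taylor nrm_le
  eval_smul_hom lam_smul bounded)
open Pool.Agent.R405 (lff lff_hom eval_lff tg tg_self)

variable {K : Type} [Field K] {n : ℕ}

theorem tan1 (f : AbsoluteValue K ℝ) {F : MvPolynomial (Fin n) K} {d : ℕ}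
    (hF : F.IsHomogeneous d) (y : Fin n → K) (hy : y ≠ 0) (hFy : eval y F = 0)
    (hg : tg y F ≠ 0) {m : ℕ} (hc : Contact F y m) :
    ∃ B : ℝ, 0 ≤ B ∧ ∀ x : Fin n → K, nrm f x = 1 → eval x F ≠ 0 →
      eval x (lff (tg y F)) ≠ 0 → 0 < dst f x y →
      min (lam f d F x) (m * ly f y x) ≤ lam f 1 (lff (tg y F)) x + B := by
  classical
  obtain ⟨a0, -⟩ := Function.ne_iff.1 hy
  have hn : 0 < n := Fin.pos a0
  obtain ⟨Y, hY⟩ : ∃ Y : ℝ, Y = nrm f y := ⟨_, rfl⟩
  have hY0 : 0 < Y := hY ▸ nrm_pos f hy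
  obtain ⟨a, ha⟩ := exists_nrm f hn y
  rw [← hY] at ha
  have hya : y a ≠ 0 := by
    intro h
    rw [h, map_zero] at ha
    exact hY0.ne ha
  obtain ⟨g, hgdef⟩ : ∃ g : Fin n → K, g = tg y F := ⟨_, rfl⟩
  rw [← hgdef] at hg ⊢
  have hgc_eq : ∀ c, eval y (pderiv c F) = g c := by
    intro c
    rw [hgdef]
    rfl
  obtain ⟨c, hgc⟩ := Function.ne_iff.1 hg
  have hgc' : g c ≠ 0 := hgc
  have hfgc : 0 < f (g c) := f.pos_iff.2 hgc'
  obtain ⟨G, hG⟩ : ∃ G : ℝ, G = ∑ b, f (g b) := ⟨_, rfl⟩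
  have hG0 : 0 < G := hG ▸ lt_of_lt_of_le hfgc
    (Finset.single_le_sum (f := fun b => f (g b)) (fun b _ => f.nonneg _) (Finset.mem_univ c))
  obtain ⟨A, hA⟩ : ∃ A : ℝ, A = G / f (g c) := ⟨_, rfl⟩
  have hA0 : 0 < A := hA ▸ div_pos hG0 hfgc
  obtain ⟨κ, hκ⟩ : ∃ κ : ℝ, κ = 1 / (2 * Y) := ⟨_, rfl⟩
  have hκ0 : 0 < κ := by rw [hκ]; positivity
  obtain ⟨B1, hB10, hB1⟩ := taylor f F 2 (by norm_num)
  obtain ⟨B2, hB20, hB2⟩ := lip f (pderiv c F) 2 (by norm_num)
  obtain ⟨B3, hB30, hB3⟩ := contact_bound f hF y hc hκ0 (R := 1 / Y) (by positivity)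
  rw [← hgdef] at hB3
  obtain ⟨c0, hc0⟩ : ∃ c0 : ℝ, c0 = κ ^ (d - 1) * f (g c) := ⟨_, rfl⟩
  have hc00 : 0 < c0 := by rw [hc0]; positivity
  obtain ⟨Q, hQ⟩ : ∃ Q : ℝ, Q = 2 + A + (1 + A) / κ + 2 * (B2 * (1 + A) + B1 * A) / c0 := ⟨_, rfl⟩
  have hQ2 : 2 ≤ Q := by
    have h1 : 0 ≤ (1 + A) / κ := by positivity
    have h2 : 0 ≤ 2 * (B2 * (1 + A) + B1 * A) / c0 := by positivity
    linarith
  have hQ0 : 0 < Q := by linarith
  obtain ⟨C5, hC5⟩ : ∃ C5 : ℝ, C5 = 2 * f (g c) / c0 * (1 + B3 * (1 + A) ^ m) := ⟨_, rfl⟩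
  have hC50 : 0 < C5 := by rw [hC5]; positivity
  refine ⟨m * Real.log Q + |Real.log G| + |Real.log C5|, ?_, fun x hx hFx hTx hdx => ?_⟩
  · have : 0 ≤ Real.log Q := Real.log_nonneg (by linarith)
    positivity
  have hx0 : x ≠ 0 := by
    rintro rfl
    obtain ⟨j, hj⟩ := exists_nrm f hn (0 : Fin n → K)
    rw [hx, Pi.zero_apply, map_zero] at hj
    exact one_ne_zero hj.symm
  have hlQ : 0 ≤ Real.log Q := Real.log_nonneg (by linarith)
  set T : K := ∑ b, g b * x b with hT
  have hTx' : T ≠ 0 := by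
    rw [eval_lff] at hTx
    exact hTx
  have hlamT : lam f 1 (lff g) x = - Real.log (f T) := by
    rw [lam_eq f 1 _ hx0 hTx, hx, Real.log_one, mul_zero, zero_sub, eval_lff]
  have hlamF : lam f d F x = - Real.log (f (eval x F)) := by
    rw [lam_eq f d _ hx0 hFx, hx, Real.log_one, mul_zero, zero_sub]
  set t : ℝ := ly f y x with ht
  have htd : dst f x y = Y * Real.exp (-t) := by
    have h1 : Real.log (dst f x y) = Real.log Y + (-t) := by
      rw [ht]
      unfold ly
      rw [hx, Real.log_one, hY]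
      ring
    rw [← Real.exp_log hdx, h1, Real.exp_add, Real.exp_log hY0]
  rw [hlamT]
  rcases le_or_gt t (Real.log Q) with hsm | hlarge
  · -- far from the point
    have h1 : f T ≤ G := by
      rw [hG]
      refine (f.sum_le _ _).trans (Finset.sum_le_sum fun b _ => ?_)
      rw [map_mul]
      have h2 := le_nrm f x b
      rw [hx] at h2
      exact (mul_le_mul_of_nonneg_left h2 (f.nonneg _)).trans (le_of_eq (mul_one _))
    have h2 := Real.log_le_log (f.pos_iff.2 hTx') h1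
    have h3 : min (lam f d F x) (m * t) ≤ m * Real.log Q :=
      (min_le_right _ _).trans (mul_le_mul_of_nonneg_left hsm (Nat.cast_nonneg m))
    have h4 := le_abs_self (Real.log G)
    have h5 := abs_nonneg (Real.log C5)
    linarith
  -- near the point
  have hexp : Real.exp (-t) ≤ Q⁻¹ := by
    rw [← Real.exp_log hQ0, ← Real.exp_neg]
    exact Real.exp_le_exp.2 (by linarith)
  set N : K := x a / y a with hN
  set u : Fin n → K := x - N • y with hu
  have hub : ∀ b, u b = (x b * y a - x a * y b) / y a := by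
    intro b
    rw [hu, Pi.sub_apply, Pi.smul_apply, smul_eq_mul, hN]
    field_simp
  set ν := nrm f u with hν
  have hν0 : 0 ≤ ν := nrm_nonneg f u
  have hνt : ν ≤ Real.exp (-t) := by
    refine nrm_le (Real.exp_pos _).le fun b => ?_
    rw [hub, map_div₀, ha, div_le_iff₀ hY0]
    refine (le_dst f x y b a).trans (le_of_eq ?_)
    rw [htd, mul_comm]
  have hνQ : ν * Q ≤ 1 := by
    calc ν * Q ≤ Q⁻¹ * Q := mul_le_mul_of_nonneg_right (hνt.trans hexp) hQ0.le
      _ = 1 := inv_mul_cancel₀ hQ0.ne'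
  have hν2 : 2 * ν ≤ 1 := by nlinarith
  have hνA : A * ν ≤ 1 := by
    have h1 : A ≤ Q := by
      have h1 : 0 ≤ (1 + A) / κ := by positivity
      have h2 : 0 ≤ 2 * (B2 * (1 + A) + B1 * A) / c0 := by positivity
      linarith
    nlinarith
  have hνκ : (1 + A) * ν ≤ κ := by
    have h1 : (1 + A) / κ ≤ Q := by
      have h2 : 0 ≤ 2 * (B2 * (1 + A) + B1 * A) / c0 := by positivity
      linarith
    have h3 : (1 + A) / κ * ν ≤ 1 := by
      have := mul_le_mul_of_nonneg_right h1 hν0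
      linarith
    rw [div_mul_eq_mul_div, div_le_one hκ0] at h3
    exact h3
  have hνc : (B2 * (1 + A) + B1 * A) * ν ≤ c0 / 2 := by
    have h1 : 2 * (B2 * (1 + A) + B1 * A) / c0 ≤ Q := by
      have h2 : 0 ≤ (1 + A) / κ := by positivity
      linarith
    have h3 : 2 * (B2 * (1 + A) + B1 * A) / c0 * ν ≤ 1 := by
      have := mul_le_mul_of_nonneg_right h1 hν0
      linarith
    rw [div_mul_eq_mul_div, div_le_one hc00] at h3
    linarith
  -- the size of `N`
  have hN1 : κ ≤ f N := by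
    obtain ⟨j, hj⟩ := exists_nrm f hn x
    rw [hx] at hj
    have h1 : x j = N * y j + u j := by
      rw [hu, Pi.sub_apply, Pi.smul_apply, smul_eq_mul]
      ring
    have h2 : f (x j) ≤ f N * f (y j) + f (u j) := by
      rw [h1]
      refine (f.add_le _ _).trans (le_of_eq ?_)
      rw [map_mul]
    have h3 : f N * f (y j) ≤ f N * Y :=
      mul_le_mul_of_nonneg_left ((le_nrm f y j).trans_eq hY.symm) (f.nonneg _)
    have h4 := le_nrm f u j
    rw [hκ, div_le_iff₀ (by positivity)]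
    linarith
  have hN2 : f N ≤ 1 / Y := by
    rw [hN, map_div₀, ha]
    refine div_le_div_of_nonneg_right ?_ hY0.le
    rw [← hx]
    exact le_nrm f x a
  -- the decomposition
  have hgy : ∑ b, g b * y b = 0 := by
    rw [hgdef]
    exact tg_self hF y hFy
  have hTu : T = ∑ b, g b * u b := by
    rw [hT]
    have h1 : ∀ b, g b * u b = g b * x b - N * (g b * y b) := by
      intro b
      rw [hu, Pi.sub_apply, Pi.smul_apply, smul_eq_mul]
      ring
    simp only [h1, Finset.sum_sub_distrib, ← Finset.mul_sum]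
    rw [hgy, mul_zero, sub_zero]
  set τ : K := T / g c with hτ
  have hfτ : f τ ≤ A * ν := by
    rw [hτ, map_div₀, hA, div_mul_eq_mul_div]
    refine div_le_div_of_nonneg_right ?_ hfgc.le
    rw [hTu, hG, Finset.sum_mul]
    refine (f.sum_le _ _).trans (Finset.sum_le_sum fun b _ => ?_)
    rw [map_mul]
    exact mul_le_mul_of_nonneg_left (le_nrm f u b) (f.nonneg _)
  set w : Fin n → K := Pi.single c τ with hw
  have hwn : nrm f w = f τ := by
    apply le_antisymm
    · refine nrm_le (f.nonneg _) fun b => ?_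
      by_cases hb : b = c
      · subst hb
        rw [hw, Pi.single_eq_same]
      · rw [hw, Pi.single_eq_of_ne hb, map_zero]
        exact f.nonneg _
    · have := le_nrm f w c
      rwa [hw, Pi.single_eq_same] at this
  set u' : Fin n → K := u - w with hu'
  have hu'n : nrm f u' ≤ (1 + A) * ν := by
    refine nrm_le (by positivity) fun b => ?_
    have h1 : f (u b - w b) ≤ f (u b) + f (w b) := by
      rw [sub_eq_add_neg]
      refine (f.add_le _ _).trans (le_of_eq ?_)
      rw [f.map_neg]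
    have h2 := le_nrm f u b
    have h3 := le_nrm f w b
    rw [hwn] at h3
    rw [hu', Pi.sub_apply]
    linarith
  have hTu' : ∑ b, g b * u' b = 0 := by
    have h1 : ∀ b, g b * u' b = g b * u b - g b * w b := by
      intro b
      rw [hu', Pi.sub_apply, mul_sub]
    simp only [h1, Finset.sum_sub_distrib]
    rw [← hTu, hw]
    have h2 : ∑ b, g b * (Pi.single c τ : Fin n → K) b = g c * τ := by
      rw [Finset.sum_eq_single c]
      · rw [Pi.single_eq_same]
      · intro b _ hb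
        rw [Pi.single_eq_of_ne hb, mul_zero]
      · intro h
        exact absurd (Finset.mem_univ _) h
    rw [h2, hτ, mul_div_cancel₀ _ hgc', sub_self]
  set z : Fin n → K := N • y + u' with hz
  have hzw : z + w = x := by
    rw [hz, hu', hu]
    abel
  have hzn : nrm f z ≤ 2 := by
    refine nrm_le (by norm_num) fun b => ?_
    have h1 : z b = x b - w b := by rw [← hzw, Pi.add_apply, add_sub_cancel_right]
    have h2 : f (x b - w b) ≤ f (x b) + f (w b) := by
      rw [sub_eq_add_neg]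
      refine (f.add_le _ _).trans (le_of_eq ?_)
      rw [f.map_neg]
    have h3 := le_nrm f x b
    have h4 := le_nrm f w b
    rw [hx] at h3
    rw [hwn] at h4
    rw [h1]
    linarith
  have hNyn : nrm f (N • y) ≤ 2 := by
    rw [nrm_smul, ← hY]
    have : f N * Y ≤ 1 / Y * Y := mul_le_mul_of_nonneg_right hN2 hY0.le
    rw [one_div, inv_mul_cancel₀ hY0.ne'] at this
    linarith
  have h1 := hB1 z w hzn (by rw [hwn]; linarith)
  rw [hzw] at h1
  have hsum : ∑ b, w b * eval z (pderiv b F) = τ * eval z (pderiv c F) := by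
    rw [Finset.sum_eq_single c]
    · rw [hw, Pi.single_eq_same]
    · intro b _ hb
      rw [hw, Pi.single_eq_of_ne hb, zero_mul]
    · intro h
      exact absurd (Finset.mem_univ _) h
  rw [hsum, hwn] at h1
  have h2 := hB2 (N • y) u' hNyn (by
    have : (1 + A) * ν ≤ 2 := by nlinarith
    have h3 : ν ≤ 1 / 2 := by linarith
    have h4 : (1 + A) * ν = ν + A * ν := by ring
    -- `(1 + A) ν ≤ 1`
    have h5 : (1 + A) * ν ≤ 1 := by
      have h6 : (2 + A) * ν ≤ 1 := by
        have h7 : 2 + A ≤ Q := by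
          have h1 : 0 ≤ (1 + A) / κ := by positivity
          have h2 : 0 ≤ 2 * (B2 * (1 + A) + B1 * A) / c0 := by positivity
          linarith
        nlinarith
      nlinarith
    exact hu'n.trans h5)
  rw [eval_smul_hom _ hF.pderiv] at h2
  have h3 := hB3 N u' hN1 hN2 hTu' (hu'n.trans hνκ)
  -- the derivative is not small
  have h4 : c0 - B2 * ((1 + A) * ν) ≤ f (eval z (pderiv c F)) := by
    have e1 : f (N ^ (d - 1) * eval y (pderiv c F)) ≤ f (eval z (pderiv c F)) +
        f (eval z (pderiv c F) - N ^ (d - 1) * eval y (pderiv c F)) := by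
      have e2 : N ^ (d - 1) * eval y (pderiv c F) = eval z (pderiv c F) +
        -(eval z (pderiv c F) - N ^ (d - 1) * eval y (pderiv c F)) := by ring
      conv_lhs => rw [e2]
      refine (f.add_le _ _).trans (le_of_eq ?_)
      rw [f.map_neg]
    have e3 : c0 ≤ f (N ^ (d - 1) * eval y (pderiv c F)) := by
      rw [map_mul, map_pow, hgc_eq, hc0]
      exact mul_le_mul_of_nonneg_right (pow_le_pow_left₀ hκ0.le hN1 _) (f.nonneg _)
    have e4 : B2 * nrm f u' ≤ B2 * ((1 + A) * ν) := mul_le_mul_of_nonneg_left hu'n hB20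
    linarith
  have h5 : f τ * f (eval z (pderiv c F)) ≤ f (eval x F) + f (eval z F) + B1 * f τ ^ 2 := by
    have e1 : τ * eval z (pderiv c F) = eval x F - eval z F -
      (eval x F - eval z F - τ * eval z (pderiv c F)) := by ring
    rw [← map_mul, e1]
    refine (AbsoluteValue.sub_le_add f _ _).trans (add_le_add ?_ h1)
    exact AbsoluteValue.sub_le_add f _ _
  have hfτ0 : 0 ≤ f τ := f.nonneg _
  have h6 : f τ * (c0 / 2) ≤ f (eval x F) + f (eval z F) := by
    have e1 : B1 * f τ ^ 2 ≤ f τ * (B1 * (A * ν)) := by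
      have : B1 * f τ ^ 2 = f τ * (B1 * f τ) := by ring
      rw [this]
      exact mul_le_mul_of_nonneg_left (mul_le_mul_of_nonneg_left hfτ hB10) hfτ0
    have e2 : f τ * (c0 - B2 * ((1 + A) * ν)) ≤ f τ * f (eval z (pderiv c F)) :=
      mul_le_mul_of_nonneg_left h4 hfτ0
    have e3 : f τ * ((B2 * (1 + A) + B1 * A) * ν) ≤ f τ * (c0 / 2) :=
      mul_le_mul_of_nonneg_left hνc hfτ0
    nlinarith
  -- conclusion
  set E : ℝ := Real.exp (-(min (lam f d F x) (m * t))) with hE
  have hE1 : f (eval x F) ≤ E := by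
    rw [hE, ← Real.log_le_iff_le_exp (f.pos_iff.2 hFx)]
    have := min_le_left (lam f d F x) (m * t)
    linarith
  have hE2 : Real.exp (-t) ^ m ≤ E := by
    rw [hE, ← Real.exp_nat_mul]
    apply Real.exp_le_exp.2
    have := min_le_right (lam f d F x) (m * t)
    linarith
  have h7 : f (eval z F) ≤ B3 * (1 + A) ^ m * E := by
    refine h3.trans ?_
    rw [mul_assoc]
    refine mul_le_mul_of_nonneg_left ?_ hB30
    calc nrm f u' ^ m ≤ ((1 + A) * Real.exp (-t)) ^ m :=
          pow_le_pow_left₀ (nrm_nonneg _ _)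
            (hu'n.trans (mul_le_mul_of_nonneg_left hνt (by positivity))) _
      _ = (1 + A) ^ m * Real.exp (-t) ^ m := mul_pow _ _ _
      _ ≤ (1 + A) ^ m * E := mul_le_mul_of_nonneg_left hE2 (by positivity)
  have h8 : f T ≤ C5 * E := by
    have e1 : f T = f (g c) * f τ := by
      rw [← map_mul, hτ, mul_div_cancel₀ _ hgc']
    have e2 : f τ * (c0 / 2) ≤ (1 + B3 * (1 + A) ^ m) * E := by linarith
    have e3 : f τ ≤ (1 + B3 * (1 + A) ^ m) * E / (c0 / 2) := by
      rw [le_div_iff₀ (by positivity)]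
      exact e2
    rw [e1]
    refine (mul_le_mul_of_nonneg_left e3 hfgc.le).trans (le_of_eq ?_)
    rw [hC5]
    field_simp
  have h9 := Real.log_le_log (f.pos_iff.2 hTx') h8
  rw [Real.log_mul hC50.ne' (Real.exp_pos _).ne', Real.log_exp] at h9
  have h10 := le_abs_self (Real.log C5)
  have h11 := abs_nonneg (Real.log G)
  have h12 : 0 ≤ (m : ℝ) * Real.log Q := mul_nonneg (Nat.cast_nonneg _) hlQ
  linarith

/-- the tangent hyperplane at a point -/
theorem tan (f : AbsoluteValue K ℝ) {F : MvPolynomial (Fin n) K} {d : ℕ}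
    (hF : F.IsHomogeneous d) (y : Fin n → K) (hy : y ≠ 0) (hFy : eval y F = 0)
    (hg : tg y F ≠ 0) {m : ℕ} (hc : Contact F y m) :
    ∃ B : ℝ, 0 ≤ B ∧ ∀ x : Fin n → K, x ≠ 0 → eval x F ≠ 0 →
      eval x (lff (tg y F)) ≠ 0 → 0 < dst f x y →
      min (lam f d F x) (m * ly f y x) ≤ lam f 1 (lff (tg y F)) x + B := by
  obtain ⟨B, hB0, hB⟩ := tan1 f hF y hy hFy hg hc
  refine ⟨B, hB0, fun x hx hFx hTx hdx => ?_⟩
  have hn : 0 < n := by
    obtain ⟨j, _⟩ := Function.ne_iff.1 hx
    exact Fin.pos j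
  obtain ⟨b, hb⟩ := exists_nrm f hn x
  have hnx := nrm_pos f hx
  have hxb : x b ≠ 0 := by
    intro h
    rw [h, map_zero] at hb
    exact hnx.ne hb
  have hc0 : (x b)⁻¹ ≠ 0 := inv_ne_zero hxb
  have hnz : nrm f ((x b)⁻¹ • x) = 1 := by
    rw [nrm_smul, map_inv₀, hb, inv_mul_cancel₀ hnx.ne']
  have hev : ∀ (Q : MvPolynomial (Fin n) K) (r : ℕ), Q.IsHomogeneous r →
      eval x Q ≠ 0 → eval ((x b)⁻¹ • x) Q ≠ 0 := by
    intro Q r hQ h
    rw [eval_smul_hom Q hQ]
    exact mul_ne_zero (pow_ne_zero _ hc0) h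
  have hdz : 0 < dst f ((x b)⁻¹ • x) y := by
    rw [dst_smul]
    exact mul_pos (f.pos_iff.2 hc0) hdx
  have h1 := hB ((x b)⁻¹ • x) hnz (hev F d hF hFx) (hev _ 1 (lff_hom _) hTx) hdz
  rwa [lam_smul f F hF _ hc0 x hx hFx, lam_smul f _ (lff_hom _) _ hc0 x hx hTx,
    ly_smul f hc0 hx hdx] at h1

end Pool.Agent.H7V1
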