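import Mathlib
import Pool.Agent.H7V1.Tan
import Pool.Agent.H7V1.Sel

/-!
The local inequality at one absolute value.
-/

set_option autoImplicit false
set_option linter.unusedSectionVars false

open Finset

namespace Pool.Agent.H7V1

open MvPolynomial
open Pool.Agent.W180.OP (nrm le_nrm nrm_pos nrm_nonneg exists_nrm lam lam_eq cs taylor nrm_le
  eval_smul_hom lam_smul bounded min_lam)
open Pool.Agent.R405 (lff lff_hom eval_lff tg tg_self dot)

variable {K : Type} [Field K] {n q : ℕ}

/-- the linear components which are close are independent -/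
theorem lin_near (hn : 0 < n) {F : Fin q → MvPolynomial (Fin n) K} {d : Fin q → ℕ}
    (hF : ∀ i, (F i).IsHomogeneous (d i)) (hS : NC F) (f : AbsoluteValue K ℝ) :
    ∃ B : ℝ, 0 ≤ B ∧ ∀ x : Fin n → K, x ≠ 0 → (∀ i, eval x (F i) ≠ 0) →
      LinearIndepOn K (fun i => tg 0 (F i)) {i | d i = 1 ∧ B < lam f (d i) (F i) x} := by
  classical
  have hI : ∀ I : Finset (Fin q), ∃ B : ℝ, 0 ≤ B ∧
      (¬ LinearIndepOn K (fun i => tg 0 (F i)) {i | i ∈ I ∧ d i = 1} →
        ∀ x : Fin n → K, x ≠ 0 → (∀ i, eval x (F i) ≠ 0) →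
          ∃ i ∈ I, lam f (d i) (F i) x ≤ B) := by
    intro I
    by_cases hdep : LinearIndepOn K (fun i => tg 0 (F i)) {i | i ∈ I ∧ d i = 1}
    · exact ⟨0, le_rfl, fun h => absurd hdep h⟩
    · obtain ⟨C, hC⟩ := min_lam (ι := {i // i ∈ I ∧ d i = 1}) hn (fun i => F i.1)
        (fun i => d i.1) (fun i => hF i.1) (by
          intro L _ _ x hx
          by_contra hx0
          apply hdep
          have h1 := hS L x hx0
          have h2 := h1.comp (fun i : {i // i ∈ I ∧ d i = 1} =>
            (⟨i.1, hx i⟩ : {j : Fin q // aeval x (F j) = 0})) (by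
              intro i j hij
              apply Subtype.ext
              exact congrArg (fun t => t.1) hij)
          have h3 : LinearIndependent K (fun i : {i // i ∈ I ∧ d i = 1} => tg 0 (F i.1)) := by
            rw [Fintype.linearIndependent_iff] at h2 ⊢
            intro c hc i
            have h4 := h2 (fun i => algebraMap K L (c i)) (by
              funext b
              have h5 := congrFun hc b
              rw [Finset.sum_apply] at h5 ⊢
              have h6 := congrArg (algebraMap K L) h5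
              rw [map_sum, Pi.zero_apply, map_zero] at h6
              refine Eq.trans (Finset.sum_congr rfl fun i _ => ?_) h6
              show algebraMap K L (c i) * aeval x (pderiv b (F i.1)) =
                algebraMap K L (c i * tg 0 (F i.1) b)
              have h7 : (F i.1).IsHomogeneous 1 := by
                have h8 := hF i.1
                rwa [i.2.2] at h8
              rw [grad_const h7, map_mul]) i
            exact (map_eq_zero _).1 h4
          exact h3) f
      refine ⟨|C|, abs_nonneg _, fun _ x hx hFx => ?_⟩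
      obtain ⟨i, hi⟩ := hC x hx fun i => hFx i.1
      exact ⟨i.1, i.2.1, hi.trans (le_abs_self _)⟩
  choose B hB0 hB using hI
  refine ⟨∑ I, B I, Finset.sum_nonneg fun I _ => hB0 I, fun x hx hFx => ?_⟩
  by_contra hcon
  set I : Finset (Fin q) := Finset.univ.filter fun i => d i = 1 ∧
    ∑ I, B I < lam f (d i) (F i) x with hIdef
  have hset : {i | i ∈ I ∧ d i = 1} = {i | d i = 1 ∧ ∑ I, B I < lam f (d i) (F i) x} := by
    ext i
    simp only [Set.mem_ofPred_eq, hIdef, Finset.mem_filter, Finset.mem_univ, true_and]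
    constructor
    · rintro ⟨⟨h1, h2⟩, _⟩
      exact ⟨h1, h2⟩
    · rintro ⟨h1, h2⟩
      exact ⟨⟨h1, h2⟩, h1⟩
  obtain ⟨i, hi, hle⟩ := hB I (by rw [hset]; exact hcon) x hx hFx
  have h1 := (Finset.mem_filter.1 hi).2.2
  have h2 := Finset.single_le_sum (f := B) (fun I _ => hB0 I) (Finset.mem_univ I)
  linarith

theorem dst_pos (hn : 2 ≤ n) (f : AbsoluteValue K ℝ) {x y : Fin n → K} (hy : y ≠ 0)
    (h : ∀ a b, mv y a b ≠ 0 → dot (mv y a b) x ≠ 0) : 0 < dst f x y := by
  obtain ⟨a, ha⟩ := Function.ne_iff.1 hy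
  have hya : y a ≠ 0 := ha
  have : Nontrivial (Fin n) := Fin.nontrivial_iff_two_le.2 hn
  obtain ⟨b, hb⟩ := exists_ne a
  have h1 : mv y a b ≠ 0 := by
    intro h
    have := congrFun h b
    rw [mv, Pi.sub_apply, Pi.single_eq_same, Pi.single_eq_of_ne hb, sub_zero] at this
    exact hya this
  have h2 := h a b h1
  rw [dot_mv] at h2
  exact (f.pos_iff.2 h2).trans_le (le_dst f x y b a)

open Classical in
/-- the finite set of linear forms -/
noncomputable def WW (F : Fin q → MvPolynomial (Fin n) K) (P : Finset (Fin n → K)) :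
    Finset (Fin n → K) :=
  (((univ.image fun b => Pi.single b 1) ∪ (univ.image fun i => tg 0 (F i))) ∪
    ((P ×ˢ univ).image (fun p : (Fin n → K) × Fin q => tg p.1 (F p.2)) ∪
    (P ×ˢ (univ ×ˢ univ)).image
      (fun p : (Fin n → K) × Fin n × Fin n => mv p.1 p.2.1 p.2.2))).filter fun v => v ≠ 0

theorem WW_ne {F : Fin q → MvPolynomial (Fin n) K} {P : Finset (Fin n → K)} {v : Fin n → K}
    (h : v ∈ WW F P) : v ≠ 0 := by
  classical
  unfold WW at h
  exact (Finset.mem_filter.1 h).2

theorem WW_single (F : Fin q → MvPolynomial (Fin n) K) (P : Finset (Fin n → K)) (b : Fin n) :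
    Pi.single b (1 : K) ∈ WW F P := by
  classical
  refine Finset.mem_filter.2 ⟨?_, fun h => ?_⟩
  · exact Finset.mem_union_left _ (Finset.mem_union_left _
      (Finset.mem_image_of_mem _ (Finset.mem_univ _)))
  · have := congrFun h b
    rw [Pi.single_eq_same] at this
    exact one_ne_zero this

theorem WW_lin (F : Fin q → MvPolynomial (Fin n) K) (P : Finset (Fin n → K)) (i : Fin q)
    (h : tg 0 (F i) ≠ 0) : tg 0 (F i) ∈ WW F P := by
  classical
  exact Finset.mem_filter.2 ⟨Finset.mem_union_left _ (Finset.mem_union_right _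
      (Finset.mem_image_of_mem _ (Finset.mem_univ _))), h⟩

theorem WW_tg (F : Fin q → MvPolynomial (Fin n) K) {P : Finset (Fin n → K)} {y : Fin n → K}
    (hy : y ∈ P) (i : Fin q) (h : tg y (F i) ≠ 0) : tg y (F i) ∈ WW F P := by
  classical
  exact Finset.mem_filter.2 ⟨Finset.mem_union_right _ (Finset.mem_union_left _
      (Finset.mem_image.2 ⟨(y, i), Finset.mem_product.2 ⟨hy, Finset.mem_univ _⟩, rfl⟩)), h⟩

theorem WW_mv (F : Fin q → MvPolynomial (Fin n) K) {P : Finset (Fin n → K)} {y : Fin n → K}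
    (hy : y ∈ P) (a b : Fin n) (h : mv y a b ≠ 0) : mv y a b ∈ WW F P := by
  classical
  exact Finset.mem_filter.2 ⟨Finset.mem_union_right _ (Finset.mem_union_right _
      (Finset.mem_image.2 ⟨(y, (a, b)), Finset.mem_product.2 ⟨hy, Finset.mem_product.2
        ⟨Finset.mem_univ _, Finset.mem_univ _⟩⟩, rfl⟩)), h⟩

/-- the contribution of a component -/
noncomputable def loc (f : AbsoluteValue K ℝ) (F : Fin q → MvPolynomial (Fin n) K)
    (d : Fin q → ℕ) (m : Fin q → (Fin n → K) → ℕ) (y x : Fin n → K) (i : Fin q) : ℝ :=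
  if d i = 1 then lam f (d i) (F i) x else min (lam f (d i) (F i) x) (m i y * ly f y x)

theorem span_top (b0 : Fin n) (y : Fin n → K) (hy : y b0 ≠ 0) (W : Set (Fin n → K))
    (h0 : Pi.single b0 1 ∈ Submodule.span K W) (h1 : ∀ b, mv y b0 b ∈ Submodule.span K W) :
    Submodule.span K W = ⊤ := by
  classical
  have h2 : ∀ b, Pi.single b (1 : K) ∈ Submodule.span K W := by
    intro b
    have h3 : (Pi.single b (1 : K) : Fin n → K) =
        (y b0)⁻¹ • (mv y b0 b + y b • Pi.single b0 1) := by
      funext j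
      rw [Pi.smul_apply, Pi.add_apply, Pi.smul_apply, mv, Pi.sub_apply, smul_eq_mul, smul_eq_mul]
      by_cases hj : j = b
      · subst hj
        by_cases hb : j = b0
        · subst hb
          simp only [Pi.single_eq_same]
          field_simp
          ring
        · rw [Pi.single_eq_same, Pi.single_eq_same, Pi.single_eq_of_ne hb,
            Pi.single_eq_of_ne hb, sub_zero, mul_zero, add_zero, inv_mul_cancel₀ hy]
      · by_cases hb : j = b0
        · subst hb
          rw [Pi.single_eq_of_ne hj, Pi.single_eq_of_ne hj, Pi.single_eq_same, Pi.single_eq_same]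
          ring
        · rw [Pi.single_eq_of_ne hj, Pi.single_eq_of_ne hj, Pi.single_eq_of_ne hb,
            Pi.single_eq_of_ne hb]
          ring
    rw [h3]
    exact Submodule.smul_mem _ _ (Submodule.add_mem _ (h1 b) (Submodule.smul_mem _ _ h0))
  rw [eq_top_iff]
  intro v _
  have h3 : v = ∑ b, v b • Pi.single b (1 : K) := by
    funext j
    rw [Finset.sum_apply, Finset.sum_eq_single j]
    · rw [Pi.smul_apply, Pi.single_eq_same, smul_eq_mul, mul_one]
    · intro b _ hb
      rw [Pi.smul_apply, Pi.single_eq_of_ne (Ne.symm hb), smul_zero]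
    · intro h
      exact absurd (Finset.mem_univ _) h
  rw [h3]
  exact Submodule.sum_mem _ fun b _ => Submodule.smul_mem _ _ (h2 b)

open Classical in
/-- the inequality near the point -/
theorem near_pt (hn : 2 ≤ n) (f : AbsoluteValue K ℝ) {F : Fin q → MvPolynomial (Fin n) K}
    {d : Fin q → ℕ} (hF : ∀ i, (F i).IsHomogeneous (d i)) (hS : NC F) {P : Finset (Fin n → K)}
    {y : Fin n → K} (hyP : y ∈ P) (hy : y ≠ 0) {m : Fin q → (Fin n → K) → ℕ}
    (hm : ∀ i, eval y (F i) = 0 → Contact (F i) y (m i y)) :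
    ∃ C : ℝ, 0 ≤ C ∧ ∀ x : Fin n → K, x ≠ 0 → (∀ i, eval x (F i) ≠ 0) →
      (∀ v ∈ WW F P, dot v x ≠ 0) → ∃ β : Fin n → (Fin n → K), (∀ a, β a ∈ WW F P) ∧
        (Matrix.of β).det ≠ 0 ∧
        ∑ i ∈ univ.filter (fun i => eval y (F i) = 0), loc f F d m y x i +
          ((n : ℝ) - 1 - ((univ.filter (fun i => eval y (F i) = 0)).card : ℝ)) * ly f y x ≤
            ∑ a, ph f x (β a) + C := by
  classical
  set Iy : Finset (Fin q) := univ.filter (fun i => eval y (F i) = 0) with hIy
  have hind := hS.at hy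
  have hcoe : {i | eval y (F i) = 0} = (Iy : Set (Fin q)) := by
    ext i
    simp [hIy]
  rw [hcoe] at hind
  have hinj := hind.injOn
  have htg : ∀ i ∈ Iy, tg y (F i) ≠ 0 := fun i hi => hind.ne_zero hi
  -- the tangent bounds
  have htan : ∀ i, ∃ B : ℝ, 0 ≤ B ∧ (i ∈ Iy → ∀ x : Fin n → K, x ≠ 0 → eval x (F i) ≠ 0 →
      eval x (lff (tg y (F i))) ≠ 0 → 0 < dst f x y →
      min (lam f (d i) (F i) x) (m i y * ly f y x) ≤ lam f 1 (lff (tg y (F i))) x + B) := by
    intro i
    by_cases hi : i ∈ Iy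
    · have hiy := (Finset.mem_filter.1 hi).2
      obtain ⟨B, hB0, hB⟩ := tan f (hF i) y hy hiy (htg i hi) (hm i hiy)
      exact ⟨B, hB0, fun _ => hB⟩
    · exact ⟨0, le_rfl, fun h => absurd h hi⟩
  choose B hB0 hB using htan
  obtain ⟨b0, hb0⟩ := Function.ne_iff.1 hy
  have hyb : y b0 ≠ 0 := hb0
  set A : Finset (Fin n → K) := Iy.image fun i => tg y (F i) with hA
  set W : Finset (Fin n → K) := A ∪ (insert (Pi.single b0 1)
    ((univ ×ˢ univ).image fun p : Fin n × Fin n => mv y p.1 p.2)) with hW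
  have hAind : LinearIndepOn K id (A : Set (Fin n → K)) := by
    rw [hA, Finset.coe_image]
    exact hind.id_image
  obtain ⟨T, hAT, hTW, hT0, hTc, β, hβT, hβdet, hβs⟩ := sel A W Finset.subset_union_left hAind (by
    refine span_top b0 y hyb _ ?_ ?_
    · apply Submodule.subset_span
      rw [hW, Finset.mem_coe]
      exact Finset.mem_union_right _ (Finset.mem_insert_self _ _)
    · intro b
      apply Submodule.subset_span
      rw [hW, Finset.mem_coe]
      exact Finset.mem_union_right _ (Finset.mem_insert_of_mem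
        (Finset.mem_image.2 ⟨(b0, b), Finset.mem_product.2 ⟨Finset.mem_univ _, Finset.mem_univ _⟩,
          rfl⟩)))
  have hTWW : ∀ v ∈ T, v ∈ WW F P := by
    intro v hv
    have hv0 : v ≠ 0 := fun h => hT0 (h ▸ hv)
    rcases Finset.mem_union.1 (hTW hv) with h | h
    · obtain ⟨i, -, rfl⟩ := Finset.mem_image.1 h
      exact WW_tg F hyP i hv0
    · rcases Finset.mem_insert.1 h with rfl | h
      · exact WW_single F P b0
      · obtain ⟨p, -, rfl⟩ := Finset.mem_image.1 h
        exact WW_mv F hyP p.1 p.2 hv0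
  set LY : ℝ := |Real.log (nrm f y)| with hLY
  have hLY0 : 0 ≤ LY := abs_nonneg _
  set C : ℝ := ∑ i, B i + (n * LY + Real.log 2) with hC
  have hlog2 : 0 ≤ Real.log 2 := Real.log_nonneg (by norm_num)
  have hBs : 0 ≤ ∑ i, B i := Finset.sum_nonneg fun i _ => hB0 i
  refine ⟨C, by positivity, fun x hx hFx hWx => ⟨β, fun a => hTWW _ (hβT a), hβdet, ?_⟩⟩
  have hdx : 0 < dst f x y := dst_pos hn f hy fun a b hab => hWx _ (WW_mv F hyP a b hab)
  have hly := ly_ge f hx hy hdx
  rw [hβs (ph f x), ← Finset.sum_sdiff hAT]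
  -- the tangent hyperplanes
  have hsumA : ∑ i ∈ Iy, loc f F d m y x i ≤ ∑ v ∈ A, ph f x v + ∑ i, B i := by
    rw [hA, Finset.sum_image (fun i hi j hj h => hinj hi hj h)]
    have h1 : ∑ i ∈ Iy, loc f F d m y x i ≤ ∑ i ∈ Iy, (ph f x (tg y (F i)) + B i) := by
      refine Finset.sum_le_sum fun i hi => ?_
      have hgx : dot (tg y (F i)) x ≠ 0 := hWx _ (WW_tg F hyP i (htg i hi))
      unfold loc
      by_cases hd : d i = 1
      · rw [if_pos hd]
        have h7 : (F i).IsHomogeneous 1 := hd ▸ hF i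
        rw [lam_eq f _ _ hx (hFx i), hd, eval_lin h7 x y, Nat.cast_one, one_mul]
        have := hB0 i
        unfold ph
        linarith
      · rw [if_neg hd]
        have h2 := hB i hi x hx (hFx i) (by rw [eval_lff]; exact hgx) hdx
        rw [lam_eq f 1 _ hx (by rw [eval_lff]; exact hgx), eval_lff, Nat.cast_one, one_mul] at h2
        exact h2
    rw [Finset.sum_add_distrib] at h1
    have h2 : ∑ i ∈ Iy, B i ≤ ∑ i, B i :=
      Finset.sum_le_sum_of_subset_of_nonneg (Finset.subset_univ _) fun i _ _ => hB0 i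
    linarith
  -- the other forms
  have hAc : A.card = Iy.card := by
    rw [hA, Finset.card_image_of_injOn hinj]
  have hsd : (T \ A).card + Iy.card = n := by
    rw [← hAc, Finset.card_sdiff_add_card_eq_card hAT, hTc]
  have hsdR : ((T \ A).card : ℝ) = (n : ℝ) - Iy.card := by
    have h1 : ((T \ A).card : ℝ) + Iy.card = n := by exact_mod_cast hsd
    linarith
  have hterm : ∀ v ∈ T \ A, v ≠ Pi.single b0 1 → ly f y x - LY ≤ ph f x v := by
    intro v hv hv1
    obtain ⟨hvT, hvA⟩ := Finset.mem_sdiff.1 hv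
    rcases Finset.mem_union.1 (hTW hvT) with h | h
    · exact absurd h hvA
    · rcases Finset.mem_insert.1 h with h | h
      · exact absurd h hv1
      · obtain ⟨p, -, rfl⟩ := Finset.mem_image.1 h
        have h1 := ph_mv f p.1 p.2 (hWx _ (hTWW _ hvT))
        have h2 := le_abs_self (Real.log (nrm f y))
        linarith
  have hsumT : ((n : ℝ) - 1 - Iy.card) * ly f y x - (n * LY + Real.log 2) ≤
      ∑ v ∈ T \ A, ph f x v := by
    have hnLY : ((T \ A).card : ℝ) * LY ≤ n * LY := by
      refine mul_le_mul_of_nonneg_right ?_ hLY0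
      rw [hsdR]
      have : (0 : ℝ) ≤ Iy.card := Nat.cast_nonneg _
      linarith
    by_cases he : Pi.single b0 (1 : K) ∈ T \ A
    · rw [← Finset.add_sum_erase _ _ he]
      have h1 : 0 ≤ ph f x (Pi.single b0 (1 : K)) :=
        ph_single f b0 (hWx _ (WW_single F P b0))
      have h2 : ((T \ A).erase (Pi.single b0 (1 : K))).card • (ly f y x - LY) ≤
          ∑ v ∈ (T \ A).erase (Pi.single b0 (1 : K)), ph f x v := by
        refine Finset.card_nsmul_le_sum _ _ _ fun v hv => ?_
        exact hterm v (Finset.mem_of_mem_erase hv) (Finset.ne_of_mem_erase hv)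
      have h3 : (((T \ A).erase (Pi.single b0 (1 : K))).card : ℝ) = (T \ A).card - 1 := by
        rw [Finset.card_erase_of_mem he, Nat.cast_sub (Finset.card_pos.2 ⟨_, he⟩), Nat.cast_one]
      rw [nsmul_eq_mul, h3, mul_sub, hsdR] at h2
      rw [hsdR] at hnLY
      have h4 : ((n : ℝ) - Iy.card - 1) * ly f y x = ((n : ℝ) - 1 - Iy.card) * ly f y x := by ring
      have h5 : ((n : ℝ) - Iy.card - 1) * LY = ((n : ℝ) - Iy.card) * LY - LY := by ring
      rw [h4, h5] at h2
      linarith
    · have h2 : (T \ A).card • (ly f y x - LY) ≤ ∑ v ∈ T \ A, ph f x v := by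
        refine Finset.card_nsmul_le_sum _ _ _ fun v hv => ?_
        exact hterm v hv fun h => he (h ▸ hv)
      rw [nsmul_eq_mul, mul_sub, hsdR] at h2
      rw [hsdR] at hnLY
      have h4 : ((n : ℝ) - Iy.card) * ly f y x =
        ((n : ℝ) - 1 - Iy.card) * ly f y x + ly f y x := by ring
      rw [h4] at h2
      linarith
  linarith

open Classical in
/-- the inequality far from the point -/
theorem far_pt (hn : 2 ≤ n) (f : AbsoluteValue K ℝ) {F : Fin q → MvPolynomial (Fin n) K}
    {d : Fin q → ℕ} (hF : ∀ i, (F i).IsHomogeneous (d i)) (hS : NC F) (P : Finset (Fin n → K)) :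
    ∃ C : ℝ, 0 ≤ C ∧ ∀ x : Fin n → K, x ≠ 0 → (∀ i, eval x (F i) ≠ 0) →
      (∀ v ∈ WW F P, dot v x ≠ 0) → ∃ β : Fin n → (Fin n → K), (∀ a, β a ∈ WW F P) ∧
        (Matrix.of β).det ≠ 0 ∧
        ∑ i ∈ univ.filter (fun i => d i = 1), lam f (d i) (F i) x ≤
            ∑ a, ph f x (β a) + C := by
  classical
  obtain ⟨B, hB0, hB⟩ := lin_near (by omega) hF hS f
  refine ⟨q * B, by positivity, fun x hx hFx hWx => ?_⟩
  have hind := hB x hx hFx
  set I : Finset (Fin q) := univ.filter fun i => d i = 1 ∧ B < lam f (d i) (F i) x with hI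
  have hcoe : {i | d i = 1 ∧ B < lam f (d i) (F i) x} = (I : Set (Fin q)) := by
    ext i
    simp [hI]
  rw [hcoe] at hind
  have hinj := hind.injOn
  set A : Finset (Fin n → K) := I.image fun i => tg 0 (F i) with hA
  set W : Finset (Fin n → K) := A ∪ (univ.image fun b => Pi.single b (1 : K)) with hW
  have hAind : LinearIndepOn K id (A : Set (Fin n → K)) := by
    rw [hA, Finset.coe_image]
    exact hind.id_image
  obtain ⟨b0⟩ : Nonempty (Fin n) := ⟨⟨0, by omega⟩⟩
  obtain ⟨T, hAT, hTW, hT0, hTc, β, hβT, hβdet, hβs⟩ := sel A W Finset.subset_union_left hAind (by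
    rw [eq_top_iff]
    intro v _
    have h3 : v = ∑ b, v b • Pi.single b (1 : K) := by
      funext j
      rw [Finset.sum_apply, Finset.sum_eq_single j]
      · rw [Pi.smul_apply, Pi.single_eq_same, smul_eq_mul, mul_one]
      · intro b _ hb
        rw [Pi.smul_apply, Pi.single_eq_of_ne (Ne.symm hb), smul_zero]
      · intro h
        exact absurd (Finset.mem_univ _) h
    rw [h3]
    refine Submodule.sum_mem _ fun b _ => Submodule.smul_mem _ _ (Submodule.subset_span ?_)
    rw [hW, Finset.mem_coe]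
    exact Finset.mem_union_right _ (Finset.mem_image_of_mem _ (Finset.mem_univ _)))
  have hTWW : ∀ v ∈ T, v ∈ WW F P := by
    intro v hv
    have hv0 : v ≠ 0 := fun h => hT0 (h ▸ hv)
    rcases Finset.mem_union.1 (hTW hv) with h | h
    · obtain ⟨i, -, rfl⟩ := Finset.mem_image.1 h
      exact WW_lin F P i hv0
    · obtain ⟨b, -, rfl⟩ := Finset.mem_image.1 h
      exact WW_single F P b
  refine ⟨β, fun a => hTWW _ (hβT a), hβdet, ?_⟩
  rw [hβs (ph f x), ← Finset.sum_sdiff hAT]
  have h1 : 0 ≤ ∑ v ∈ T \ A, ph f x v := by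
    refine Finset.sum_nonneg fun v hv => ?_
    obtain ⟨hvT, hvA⟩ := Finset.mem_sdiff.1 hv
    rcases Finset.mem_union.1 (hTW hvT) with h | h
    · exact absurd h hvA
    · obtain ⟨b, -, rfl⟩ := Finset.mem_image.1 h
      exact ph_single f b (hWx _ (WW_single F P b))
  have h2 : ∑ i ∈ I, lam f (d i) (F i) x = ∑ v ∈ A, ph f x v := by
    rw [hA, Finset.sum_image (fun i hi j hj h => hinj hi hj h)]
    refine Finset.sum_congr rfl fun i hi => ?_
    have hd : d i = 1 := ((Finset.mem_filter.1 hi).2).1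
    have h7 : (F i).IsHomogeneous 1 := hd ▸ hF i
    rw [lam_eq f _ _ hx (hFx i), hd, eval_lin h7 x 0, Nat.cast_one, one_mul]
    rfl
  have h3 : I ⊆ univ.filter fun i => d i = 1 := by
    intro i hi
    exact Finset.mem_filter.2 ⟨Finset.mem_univ _, ((Finset.mem_filter.1 hi).2).1⟩
  rw [← Finset.sum_sdiff h3, h2]
  have h4 : ∑ i ∈ (univ.filter fun i => d i = 1) \ I, lam f (d i) (F i) x ≤ q * B := by
    have h5 : ∑ i ∈ (univ.filter fun i => d i = 1) \ I, lam f (d i) (F i) x ≤
        ((univ.filter fun i => d i = 1) \ I).card • B := by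
      refine Finset.sum_le_card_nsmul _ _ _ fun i hi => ?_
      obtain ⟨hi1, hi2⟩ := Finset.mem_sdiff.1 hi
      by_contra hcon
      exact hi2 (Finset.mem_filter.2 ⟨Finset.mem_univ _, (Finset.mem_filter.1 hi1).2,
        not_le.1 hcon⟩)
    refine h5.trans ?_
    rw [nsmul_eq_mul]
    refine mul_le_mul_of_nonneg_right ?_ hB0
    have h6 : ((univ.filter fun i => d i = 1) \ I).card ≤ q := by
      refine (Finset.card_le_univ _).trans ?_
      rw [Fintype.card_fin]
    exact_mod_cast h6
  linarith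

open Classical in
/-- the local inequality -/
theorem local_pt (hn : 2 ≤ n) (f : AbsoluteValue K ℝ) {F : Fin q → MvPolynomial (Fin n) K}
    {d : Fin q → ℕ} (hF : ∀ i, (F i).IsHomogeneous (d i)) (hS : NC F) {P : Finset (Fin n → K)}
    {y : Fin n → K} (hyP : y ∈ P) (hy : y ≠ 0) {m : Fin q → (Fin n → K) → ℕ}
    (hm : ∀ i, eval y (F i) = 0 → Contact (F i) y (m i y)) :
    ∃ C : ℝ, 0 ≤ C ∧ ∀ x : Fin n → K, x ≠ 0 → (∀ i, eval x (F i) ≠ 0) →
      (∀ v ∈ WW F P, dot v x ≠ 0) → ∃ β : Fin n → (Fin n → K), (∀ a, β a ∈ WW F P) ∧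
        (Matrix.of β).det ≠ 0 ∧
        ∑ i, loc f F d m y x i +
          ((n : ℝ) - 1 - ((univ.filter (fun i => eval y (F i) = 0)).card : ℝ)) * ly f y x ≤
            ∑ a, ph f x (β a) + C := by
  classical
  have hfar : ∀ i, ∃ B : ℝ, 0 ≤ B ∧ (eval y (F i) ≠ 0 → ∀ x : Fin n → K, x ≠ 0 →
      eval x (F i) ≠ 0 → (∀ a b, mv y a b ≠ 0 → dot (mv y a b) x ≠ 0) →
      lam f (d i) (F i) x ≤ B ∨ ly f y x ≤ B) := by
    intro i
    by_cases hi : eval y (F i) ≠ 0
    · obtain ⟨B, hB⟩ := far_comp f (hF i) hy hi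
      refine ⟨|B|, abs_nonneg _, fun _ x hx hFx hmx => ?_⟩
      have := le_abs_self B
      rcases hB x hx hFx hmx with h | h
      · left; linarith
      · right; linarith
    · exact ⟨0, le_rfl, fun h => absurd h hi⟩
  choose B hB0 hB using hfar
  obtain ⟨C1, hC10, hC1⟩ := near_pt hn f hF hS hyP hy hm
  obtain ⟨C2, hC20, hC2⟩ := far_pt hn f hF hS P
  set B' : ℝ := ∑ i, B i with hB'
  have hB'0 : 0 ≤ B' := Finset.sum_nonneg fun i _ => hB0 i
  have hBle : ∀ i, B i ≤ B' := fun i =>
    Finset.single_le_sum (f := B) (fun i _ => hB0 i) (Finset.mem_univ i)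
  have hlog2 : 0 ≤ Real.log 2 := Real.log_nonneg (by norm_num)
  set mm : ℝ := ∑ i, (m i y : ℝ) with hmm
  have hmm0 : 0 ≤ mm := Finset.sum_nonneg fun i _ => Nat.cast_nonneg _
  refine ⟨C1 + C2 + q * B' + mm * B' + (n + q + 1) * (B' + Real.log 2), by positivity,
    fun x hx hFx hWx => ?_⟩
  have hmx : ∀ a b, mv y a b ≠ 0 → dot (mv y a b) x ≠ 0 := fun a b hab =>
    hWx _ (WW_mv F hyP a b hab)
  have hdx : 0 < dst f x y := dst_pos hn f hy hmx
  have hly := ly_ge f hx hy hdx
  rcases le_or_gt (ly f y x) B' with hsm | hlarge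
  · -- far from the point
    obtain ⟨β, h1, h2, h3⟩ := hC2 x hx hFx hWx
    refine ⟨β, h1, h2, ?_⟩
    have h4 : ∑ i, loc f F d m y x i ≤ ∑ i ∈ univ.filter (fun i => d i = 1),
        lam f (d i) (F i) x + mm * B' := by
      rw [← Finset.sum_filter_add_sum_filter_not univ (fun i => d i = 1)]
      have h5 : ∑ i ∈ univ.filter (fun i => d i = 1), loc f F d m y x i =
          ∑ i ∈ univ.filter (fun i => d i = 1), lam f (d i) (F i) x := by
        refine Finset.sum_congr rfl fun i hi => ?_
        unfold loc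
        rw [if_pos (Finset.mem_filter.1 hi).2]
      have h6 : ∑ i ∈ univ.filter (fun i => ¬ d i = 1), loc f F d m y x i ≤ mm * B' := by
        have h7 : ∑ i ∈ univ.filter (fun i => ¬ d i = 1), loc f F d m y x i ≤
            ∑ i ∈ univ.filter (fun i => ¬ d i = 1), (m i y : ℝ) * B' := by
          refine Finset.sum_le_sum fun i hi => ?_
          unfold loc
          rw [if_neg (Finset.mem_filter.1 hi).2]
          exact (min_le_right _ _).trans (mul_le_mul_of_nonneg_left hsm (Nat.cast_nonneg _))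
        rw [← Finset.sum_mul] at h7
        refine h7.trans (mul_le_mul_of_nonneg_right ?_ hB'0)
        exact Finset.sum_le_sum_of_subset_of_nonneg (Finset.subset_univ _)
          fun i _ _ => Nat.cast_nonneg _
      linarith
    have h8 : ((n : ℝ) - 1 - ((univ.filter (fun i => eval y (F i) = 0)).card : ℝ)) * ly f y x ≤
        (n + q + 1) * (B' + Real.log 2) := by
      have hc1 : ((univ.filter (fun i => eval y (F i) = 0)).card : ℝ) ≤ q := by
        have : (univ.filter (fun i => eval y (F i) = 0)).card ≤ q := by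
          refine (Finset.card_le_univ _).trans ?_
          rw [Fintype.card_fin]
        exact_mod_cast this
      have hc0 : (0 : ℝ) ≤ ((univ.filter (fun i => eval y (F i) = 0)).card : ℝ) :=
        Nat.cast_nonneg _
      have hn0 : (2 : ℝ) ≤ n := by exact_mod_cast hn
      have habs : |ly f y x| ≤ B' + Real.log 2 := by
        rw [abs_le]
        constructor <;> linarith
      have habs2 : |(n : ℝ) - 1 - ((univ.filter (fun i => eval y (F i) = 0)).card : ℝ)| ≤
          n + q + 1 := by
        rw [abs_le]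
        constructor <;> linarith
      refine (le_abs_self _).trans ?_
      rw [abs_mul]
      exact mul_le_mul habs2 habs (abs_nonneg _) (by positivity)
    have h9 : 0 ≤ (q : ℝ) * B' := by positivity
    linarith
  · -- near the point
    obtain ⟨β, h1, h2, h3⟩ := hC1 x hx hFx hWx
    refine ⟨β, h1, h2, ?_⟩
    have h4 : ∑ i, loc f F d m y x i ≤ ∑ i ∈ univ.filter (fun i => eval y (F i) = 0),
        loc f F d m y x i + q * B' := by
      rw [← Finset.sum_filter_add_sum_filter_not univ (fun i => eval y (F i) = 0)]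
      have h5 : ∑ i ∈ univ.filter (fun i => ¬ eval y (F i) = 0), loc f F d m y x i ≤ q * B' := by
        have h6 : ∑ i ∈ univ.filter (fun i => ¬ eval y (F i) = 0), loc f F d m y x i ≤
            (univ.filter (fun i => ¬ eval y (F i) = 0)).card • B' := by
          refine Finset.sum_le_card_nsmul _ _ _ fun i hi => ?_
          have hiy := (Finset.mem_filter.1 hi).2
          have h7 : lam f (d i) (F i) x ≤ B' := by
            rcases hB i hiy x hx (hFx i) hmx with h | h
            · exact h.trans (hBle i)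
            · have := hBle i
              linarith
          unfold loc
          by_cases hd : d i = 1
          · rw [if_pos hd]
            exact h7
          · rw [if_neg hd]
            exact (min_le_left _ _).trans h7
        refine h6.trans ?_
        rw [nsmul_eq_mul]
        refine mul_le_mul_of_nonneg_right ?_ hB'0
        have h8 : (univ.filter (fun i => ¬ eval y (F i) = 0)).card ≤ q := by
          refine (Finset.card_le_univ _).trans ?_
          rw [Fintype.card_fin]
        exact_mod_cast h8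
      linarith
    have h9 : 0 ≤ mm * B' := by positivity
    have h10 : 0 ≤ ((n : ℝ) + q + 1) * (B' + Real.log 2) := by positivity
    linarith

end Pool.Agent.H7V1
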