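import Mathlib
import Pool.Agent.H7V1.Loc
import Pool.Agent.R405.QS3
import Pool.Agent.R405.Fin1

/-!
The global inequality.
-/

set_option autoImplicit false
set_option linter.unusedSectionVars false

open Finset

namespace Pool.Agent.H7V1

open MvPolynomial NumberField IsDedekindDomain Height Module
open Pool.Agent.W180.OP (Pl av wt wt_nonneg nrm le_nrm nrm_pos nrm_nonneg exists_nrm lam lam_eq cs
  taylor nrm_le eval_smul_hom lam_smul bounded min_lam)
open Pool.Agent.R405 (lff lff_hom eval_lff tg tg_self dot exv exv_ne Good schV descend exists_big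
  Good.nrm_ext)

section big

variable {k K : Type} [Field k] [NumberField k] [Field K] [NumberField K] [Algebra k K]

open Classical in
theorem globK [IsGalois ℚ K] (hi : ∃ z : K, z ^ 2 = -1) {n q : ℕ} (hn : 2 ≤ n)
    {F : Fin q → MvPolynomial (Fin n) K} {d : Fin q → ℕ} (hF : ∀ i, (F i).IsHomogeneous (d i))
    (hS : NC F) {P : Finset (Fin n → K)} (hP : ∀ y ∈ P, y ≠ 0) {m : Fin q → (Fin n → K) → ℕ}
    (hm : ∀ y ∈ P, ∀ i, eval y (F i) = 0 → Contact (F i) y (m i y)) :
    ∃ Z : Finset (Fin n → k), (∀ z ∈ Z, z ≠ 0) ∧ ∀ (S : Finset (Pl k))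
      (f : Pl k → AbsoluteValue K ℝ), (∀ v ∈ S, Good v (f v)) → ∀ y : Pl k → Fin n → K,
      (∀ v ∈ S, y v ∈ P) → ∀ ε : ℝ, 0 < ε → ∃ C : ℝ, ∀ x : Fin n → k, x ≠ 0 →
        (∀ z ∈ Z, ∑ j, z j * x j ≠ 0) → (∀ i, eval (exv K x) (F i) ≠ 0) →
        ∑ v ∈ S, wt v * (∑ i, loc (f v) F d m (y v) (exv K x) i +
          ((n : ℝ) - 1 - ((univ.filter (fun i => eval (y v) (F i) = 0)).card : ℝ)) *
            ly (f v) (y v) (exv K x)) ≤ (n + ε) * logHeight x + C := by
  obtain ⟨Z0, hZ0, hmain⟩ := schV (k := k) hi (by omega : 1 ≤ n)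
    (fun l : {v // v ∈ WW F P} => l.1)
  have hdes : ∀ l : {v // v ∈ WW F P}, ∃ u : Fin n → k, u ≠ 0 ∧ ∀ x : Fin n → k,
      ∑ j, u j * x j ≠ 0 → ∑ j, l.1 j * algebraMap k K (x j) ≠ 0 := by
    have : FiniteDimensional k K := inferInstance
    intro l
    exact descend l.1 (WW_ne l.2)
  choose u hu0 hu using hdes
  refine ⟨Z0 ∪ Finset.univ.image u, ?_, fun S f hf y hy ε hε => ?_⟩
  · intro z hz
    rcases Finset.mem_union.1 hz with h | h
    · exact hZ0 z h
    · obtain ⟨l, -, rfl⟩ := Finset.mem_image.1 h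
      exact hu0 l
  obtain ⟨C0, hC00, hC0⟩ := hmain S f hf ε hε
  have hloc : ∀ v, ∃ C : ℝ, 0 ≤ C ∧ (v ∈ S → ∀ x : Fin n → K, x ≠ 0 →
      (∀ i, eval x (F i) ≠ 0) → (∀ v ∈ WW F P, dot v x ≠ 0) → ∃ β : Fin n → (Fin n → K),
        (∀ a, β a ∈ WW F P) ∧ (Matrix.of β).det ≠ 0 ∧
        ∑ i, loc (f v) F d m (y v) x i +
          ((n : ℝ) - 1 - ((univ.filter (fun i => eval (y v) (F i) = 0)).card : ℝ)) *
            ly (f v) (y v) x ≤ ∑ a, ph (f v) x (β a) + C) := by
    intro v
    by_cases hv : v ∈ S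
    · obtain ⟨C, h1, h2⟩ := local_pt hn (f v) hF hS (hy v hv) (hP _ (hy v hv)) (hm _ (hy v hv))
      exact ⟨C, h1, fun _ => h2⟩
    · exact ⟨0, le_rfl, fun h => absurd h hv⟩
  choose C1 hC10 hC1 using hloc
  refine ⟨C0 + ∑ v ∈ S, wt v * C1 v, fun x hx hZx hFx => ?_⟩
  have hxK : exv K x ≠ 0 := exv_ne hx
  have hWx : ∀ v ∈ WW F P, dot v (exv K x) ≠ 0 := by
    intro v hv
    exact hu ⟨v, hv⟩ x (hZx _ (Finset.mem_union_right _ (Finset.mem_image_of_mem _
      (Finset.mem_univ _))))
  have hβ : ∀ v, ∃ β : Fin n → {v // v ∈ WW F P}, v ∈ S →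
      (Matrix.of fun a => (β a).1).det ≠ 0 ∧
        ∑ i, loc (f v) F d m (y v) (exv K x) i +
          ((n : ℝ) - 1 - ((univ.filter (fun i => eval (y v) (F i) = 0)).card : ℝ)) *
            ly (f v) (y v) (exv K x) ≤ ∑ a, ph (f v) (exv K x) (β a).1 + C1 v := by
    intro v
    by_cases hv : v ∈ S
    · obtain ⟨β, h1, h2, h3⟩ := hC1 v hv (exv K x) hxK hFx hWx
      exact ⟨fun a => ⟨β a, h1 a⟩, fun _ => ⟨h2, h3⟩⟩
    · exact ⟨fun _ => ⟨Pi.single ⟨0, by omega⟩ 1, WW_single F P _⟩, fun h => absurd h hv⟩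
  choose β hβ using hβ
  have h1 := hC0 x hx (fun z hz => hZx z (Finset.mem_union_left _ hz))
    (fun l => hWx l.1 l.2) β (fun v hv => (hβ v hv).1)
  have h2 : ∀ v ∈ S, wt v * (∑ i, loc (f v) F d m (y v) (exv K x) i +
          ((n : ℝ) - 1 - ((univ.filter (fun i => eval (y v) (F i) = 0)).card : ℝ)) *
            ly (f v) (y v) (exv K x)) ≤ wt v * ∑ a, (Real.log (nrm (av v) x) -
          Real.log (f v (dot (β v a).1 (exv K x)))) + wt v * C1 v := by
    intro v hv
    rw [← mul_add]
    refine mul_le_mul_of_nonneg_left ?_ (wt_nonneg v)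
    have h3 := (hβ v hv).2
    have h4 : nrm (f v) (exv K x) = nrm (av v) x := (hf v hv).nrm_ext x
    unfold ph at h3
    rw [h4] at h3
    exact h3
  have h3 := Finset.sum_le_sum h2
  rw [Finset.sum_add_distrib] at h3
  linarith

end big

section contact

variable {K : Type} [Field K] {n : ℕ}

/-- the multiplicity of the tangent hyperplane section, over all extension fields -/
def CT (F : MvPolynomial (Fin n) K) (y : Fin n → K) (m : ℕ) : Prop :=
  ∀ (L : Type) [Field L] [Algebra K L] (z : Fin n → L),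
    ∑ b, aeval (fun j => algebraMap K L (y j)) (pderiv b F) * z b = 0 →
    Polynomial.X ^ m ∣ aeval (fun b => Polynomial.C (algebraMap K L (y b)) +
      Polynomial.X * Polynomial.C (z b)) F

theorem pol_two (y z : Fin n → K) (F : MvPolynomial (Fin n) K) :
    Polynomial.X ^ 2 ∣ pol y z F - Polynomial.C (eval y F) -
      Polynomial.X * Polynomial.C (∑ b, eval y (pderiv b F) * z b) := by
  induction F using MvPolynomial.induction_on with
  | C a =>
    have h1 : pol y z (C a) = Polynomial.C a := by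
      unfold pol
      rw [aeval_C]
      rfl
    rw [h1, eval_C]
    simp
  | add p r hp hr =>
    have h1 : pol y z (p + r) = pol y z p + pol y z r := map_add _ _ _
    rw [h1, map_add, map_add]
    simp only [map_add, add_mul, Finset.sum_add_distrib]
    have h2 := dvd_add hp hr
    have e : pol y z p + pol y z r - (Polynomial.C (eval y p) + Polynomial.C (eval y r)) -
        Polynomial.X * (Polynomial.C (∑ b, eval y (pderiv b p) * z b) +
          Polynomial.C (∑ b, eval y (pderiv b r) * z b)) =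
        (pol y z p - Polynomial.C (eval y p) -
          Polynomial.X * Polynomial.C (∑ b, eval y (pderiv b p) * z b)) +
        (pol y z r - Polynomial.C (eval y r) -
          Polynomial.X * Polynomial.C (∑ b, eval y (pderiv b r) * z b)) := by ring
    rw [e]
    exact h2
  | mul_X p i hp =>
    obtain ⟨s, hs⟩ := hp
    have h1 : pol y z (p * X i) = pol y z p * (Polynomial.C (y i) +
        Polynomial.X * Polynomial.C (z i)) := by
      unfold pol
      rw [map_mul, aeval_X]
    have h2 : ∑ b, eval y (pderiv b (p * X i)) * z b =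
        y i * ∑ b, eval y (pderiv b p) * z b + eval y p * z i := by
      have h3 : ∀ b, eval y (pderiv b (p * X i)) * z b =
          y i * (eval y (pderiv b p) * z b) + (if b = i then eval y p * z b else 0) := by
        intro b
        rw [Derivation.leibniz, smul_eq_mul, smul_eq_mul, map_add, map_mul, map_mul, eval_X]
        by_cases hb : b = i
        · subst hb
          rw [pderiv_X_self, if_pos rfl, map_one]
          ring
        · rw [pderiv_X_of_ne (Ne.symm hb), if_neg hb, map_zero]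
          ring
      simp only [h3, Finset.sum_add_distrib, Finset.sum_ite_eq', Finset.mem_univ, if_true,
        ← Finset.mul_sum]
    rw [h1, h2, map_mul, eval_X]
    have h4 : pol y z p = Polynomial.C (eval y p) +
        Polynomial.X * Polynomial.C (∑ b, eval y (pderiv b p) * z b) +
          Polynomial.X ^ 2 * s := by
      rw [← hs]
      ring
    rw [h4]
    refine ⟨Polynomial.C (∑ b, eval y (pderiv b p) * z b) * Polynomial.C (z i) +
      s * (Polynomial.C (y i) + Polynomial.X * Polynomial.C (z i)), ?_⟩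
    simp only [map_mul, map_add]
    ring

theorem contact_two {F : MvPolynomial (Fin n) K} {y : Fin n → K} (hy : eval y F = 0) {m : ℕ}
    (hm : m ≤ 2) : Contact F y m := by
  intro z hz
  have h1 := pol_two y z F
  have h2 : ∑ b, eval y (pderiv b F) * z b = 0 := hz
  rw [hy, h2, map_zero, mul_zero, sub_zero, sub_zero] at h1
  exact (pow_dvd_pow _ hm).trans h1

end contact

section change

variable {K M : Type} [Field K] [Field M] [Algebra K M] {n q : ℕ}

theorem eval_exv (F : MvPolynomial (Fin n) K) (x : Fin n → K) :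
    eval (exv M x) (map (algebraMap K M) F) = algebraMap K M (eval x F) := by
  have h := (eval₂_comp_left (algebraMap K M) (RingHom.id K) x F).symm
  rw [eval_map]
  rw [RingHom.comp_id] at h
  exact h

theorem tg_exv (F : MvPolynomial (Fin n) K) (y : Fin n → K) :
    tg (exv M y) (map (algebraMap K M) F) = exv M (tg y F) := by
  funext b
  unfold tg
  rw [pderiv_map, eval_exv]
  rfl

theorem NC.bc {F : Fin q → MvPolynomial (Fin n) K} (hS : NC F) (M : Type) [Field M]
    [Algebra K M] : NC fun i => map (algebraMap K M) (F i) := by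
  intro L' _ _ x hx
  let _ : Algebra K L' := ((algebraMap M L').comp (algebraMap K M)).toAlgebra
  have : IsScalarTower K M L' := IsScalarTower.of_algebraMap_eq fun _ => rfl
  have hae : ∀ P : MvPolynomial (Fin n) K, aeval x (map (algebraMap K M) P) = aeval x P :=
    fun P => by rw [aeval_map_algebraMap]
  have h1 := hS L' x hx
  set e : {j : Fin q // aeval x (map (algebraMap K M) (F j)) = 0} →
      {j : Fin q // aeval x (F j) = 0} :=
    fun j => ⟨j.1, by rw [← hae]; exact j.2⟩ with he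
  have hinj : Function.Injective e := by
    intro a b hab
    apply Subtype.ext
    exact congrArg (fun t : {j : Fin q // aeval x (F j) = 0} => t.1) hab
  have h2 := h1.comp e hinj
  convert h2 using 1
  funext j i
  simp only [Function.comp_apply, he]
  rw [← hae]
  congr 1
  rw [pderiv_map]

theorem CT.contact {F : MvPolynomial (Fin n) K} {y : Fin n → K} {m : ℕ} (h : CT F y m) :
    Contact (map (algebraMap K M) F) (exv M y) m := by
  intro z hz
  have h1 := h M z (by
    rw [← hz]
    refine Finset.sum_congr rfl fun b _ => ?_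
    rw [tg_exv]
    congr 1
    exact Pool.Agent.R404.TC.aeval_pt y _)
  have h2 : pol (exv M y) z (map (algebraMap K M) F) =
      aeval (fun b => Polynomial.C (algebraMap K M (y b)) +
        Polynomial.X * Polynomial.C (z b)) F := by
    unfold pol
    rw [aeval_map_algebraMap]
    rfl
  rw [h2]
  exact h1

theorem exv_inj : Function.Injective (exv M : (Fin n → K) → Fin n → M) := by
  intro x y h
  funext j
  exact (algebraMap K M).injective (congrFun h j)

theorem nrm_ch {f : AbsoluteValue K ℝ} {g : AbsoluteValue M ℝ} {t : ℝ} (ht : 0 < t)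
    (hg : ∀ y : K, g (algebraMap K M y) = f y ^ t) (hn : 1 ≤ n) (x : Fin n → K) :
    nrm g (exv M x) = nrm f x ^ t := by
  have : Nonempty (Fin n) := ⟨⟨0, hn⟩⟩
  apply le_antisymm
  · refine ciSup_le fun p => ?_
    show g (algebraMap K M (x p)) ≤ _
    rw [hg]
    exact Real.rpow_le_rpow (f.nonneg _) (le_nrm _ _ _) ht.le
  · obtain ⟨j, hj⟩ := exists_nrm f hn x
    rw [← hj, ← hg]
    exact le_nrm g (exv M x) j

theorem dst_ch {f : AbsoluteValue K ℝ} {g : AbsoluteValue M ℝ} {t : ℝ} (ht : 0 < t)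
    (hg : ∀ y : K, g (algebraMap K M y) = f y ^ t) (hn : 1 ≤ n) (x y : Fin n → K) :
    dst g (exv M x) (exv M y) = dst f x y ^ t := by
  have : Nonempty (Fin n) := ⟨⟨0, hn⟩⟩
  have h1 : ∀ p : Fin n × Fin n, g (exv M x p.1 * exv M y p.2 - exv M x p.2 * exv M y p.1) =
      f (x p.1 * y p.2 - x p.2 * y p.1) ^ t := by
    intro p
    have e : exv M x p.1 * exv M y p.2 - exv M x p.2 * exv M y p.1 =
        algebraMap K M (x p.1 * y p.2 - x p.2 * y p.1) := by
      rw [map_sub, map_mul, map_mul]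
      rfl
    rw [← hg, e]
  apply le_antisymm
  · refine ciSup_le fun p => ?_
    rw [h1]
    exact Real.rpow_le_rpow (f.nonneg _) (le_dst _ _ _ _ _) ht.le
  · obtain ⟨p, hp⟩ := exists_eq_ciSup_of_finite
      (f := fun p : Fin n × Fin n => f (x p.1 * y p.2 - x p.2 * y p.1))
    have h2 : dst f x y = f (x p.1 * y p.2 - x p.2 * y p.1) := hp.symm
    rw [h2, ← h1]
    exact le_dst g _ _ _ _

theorem log_pow_t {a t : ℝ} (ha : 0 ≤ a) (ht : 0 < t) : Real.log (a ^ t) = t * Real.log a := by
  rcases ha.lt_or_eq with h | h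
  · exact Real.log_rpow h t
  · rw [← h, Real.zero_rpow ht.ne', Real.log_zero, mul_zero]

theorem ly_ch {f : AbsoluteValue K ℝ} {g : AbsoluteValue M ℝ} {t : ℝ} (ht : 0 < t)
    (hg : ∀ y : K, g (algebraMap K M y) = f y ^ t) (hn : 1 ≤ n) (x y : Fin n → K) :
    ly g (exv M y) (exv M x) = t * ly f y x := by
  have : 0 ≤ dst f x y := Real.iSup_nonneg fun _ => f.nonneg _
  unfold ly
  rw [nrm_ch ht hg hn, nrm_ch ht hg hn, dst_ch ht hg hn, log_pow_t (nrm_nonneg _ _) ht,
    log_pow_t (nrm_nonneg _ _) ht, log_pow_t this ht]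
  ring

theorem lam_ch {f : AbsoluteValue K ℝ} {g : AbsoluteValue M ℝ} {t : ℝ} (ht : 0 < t)
    (hg : ∀ y : K, g (algebraMap K M y) = f y ^ t) (hn : 1 ≤ n) {x : Fin n → K} (hx : x ≠ 0)
    {F : MvPolynomial (Fin n) K} (d : ℕ) (hFx : eval x F ≠ 0) :
    lam g d (map (algebraMap K M) F) (exv M x) = t * lam f d F x := by
  have hx' : exv M x ≠ 0 := by
    intro h
    apply hx
    funext j
    have := congrFun h j
    exact (map_eq_zero (algebraMap K M)).1 this
  have h1 : eval (exv M x) (map (algebraMap K M) F) ≠ 0 := by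
    rw [eval_exv, Ne, map_eq_zero]
    exact hFx
  rw [lam_eq g _ _ hx' h1, lam_eq f _ _ hx hFx, eval_exv, hg, nrm_ch ht hg hn,
    log_pow_t (nrm_nonneg _ _) ht, log_pow_t (f.nonneg _) ht]
  ring

end change

section final

variable {k K : Type} [Field k] [NumberField k] [Field K] [NumberField K] [Algebra k K]

theorem card_nat {q : ℕ} (p : Fin q → Prop) [DecidablePred p] :
    (univ.filter p).card = Nat.card {i // p i} := by
  rw [Nat.card_eq_fintype_card, Fintype.card_subtype]

theorem globT {n q : ℕ} (hn : 2 ≤ n)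
    {F : Fin q → MvPolynomial (Fin n) K} {d : Fin q → ℕ} (hF : ∀ i, (F i).IsHomogeneous (d i))
    (hS : NC F) {P : Finset (Fin n → K)} (hP : ∀ y ∈ P, y ≠ 0) {m : Fin q → (Fin n → K) → ℕ}
    (hm : ∀ y ∈ P, ∀ i, eval y (F i) = 0 → m i y ≤ 2 ∨ CT (F i) y (m i y)) :
    ∃ Z : Finset (Fin n → k), (∀ z ∈ Z, z ≠ 0) ∧ ∀ (S : Finset (Pl k))
      (w : Pl k → Pl K) (t : Pl k → ℝ) (y : Pl k → Fin n → K),
      (∀ v ∈ S, 0 < t v ∧ (∀ a : k, av (w v) (algebraMap k K a) ^ t v = av v a) ∧ y v ∈ P) →
      ∀ ε : ℝ, 0 < ε → ∃ C : ℝ, ∀ x : Fin n → k, x ≠ 0 →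
        (∀ z ∈ Z, ∑ j, z j * x j ≠ 0) → (∀ i, eval (exv K x) (F i) ≠ 0) →
        ∑ v ∈ S, wt v * (t v * (∑ i, loc (av (w v)) F d m (y v) (exv K x) i +
          ((n : ℝ) - 1 - (Nat.card {i // eval (y v) (F i) = 0} : ℝ)) *
            ly (av (w v)) (y v) (exv K x))) ≤ (n + ε) * logHeight x + C := by
  obtain ⟨M, hM1, hM2, hi, ⟨φ⟩⟩ := exists_big K
  have : NumberField M := ⟨⟩
  let _ : Algebra K M := φ.toAlgebra
  let _ : Algebra k M := (φ.comp (algebraMap k K)).toAlgebra
  have : IsScalarTower k K M := IsScalarTower.of_algebraMap_eq fun _ => rfl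
  set m' : Fin q → (Fin n → M) → ℕ := fun i => Function.extend (exv M) (m i) 0 with hm'
  have hm'y : ∀ i y, m' i (exv M y) = m i y := fun i y => exv_inj.extend_apply (m i) 0 y
  obtain ⟨Z, hZ, hmain⟩ := globK (k := k) (K := M) hi hn
    (F := fun i => map (algebraMap K M) (F i)) (d := d) (fun i => (hF i).map _) (hS.bc M)
    (P := P.image (exv M)) (by
      intro y' hy'
      obtain ⟨y, hy, rfl⟩ := Finset.mem_image.1 hy'
      intro h
      apply hP y hy
      funext j
      exact (map_eq_zero (algebraMap K M)).1 (congrFun h j)) (m := m') (by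
      intro y' hy' i hi0
      obtain ⟨y, hy, rfl⟩ := Finset.mem_image.1 hy'
      rw [hm'y]
      have h0 : eval y (F i) = 0 := by
        rw [eval_exv, map_eq_zero] at hi0
        exact hi0
      rcases hm y hy i h0 with h | h
      · exact contact_two hi0 h
      · exact h.contact)
  refine ⟨Z, hZ, fun S w t y hwt ε hε => ?_⟩
  have hg : ∀ v, ∃ g : AbsoluteValue M ℝ, v ∈ S → Good v g ∧
      ∀ y : K, g (algebraMap K M y) = av (w v) y ^ t v := by
    intro v
    by_cases hv : v ∈ S
    · obtain ⟨g, h1, h2⟩ := Pool.Agent.R405.QS.ext_place (M := M) v (w v) (t v) (hwt v hv).1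
        (hwt v hv).2.1
      exact ⟨g, fun _ => ⟨h1, h2⟩⟩
    · exact ⟨AbsoluteValue.trivial, fun h => absurd h hv⟩
  choose g hg using hg
  obtain ⟨C, hC⟩ := hmain S g (fun v hv => (hg v hv).1) (fun v => exv M (y v))
    (fun v hv => Finset.mem_image_of_mem _ (hwt v hv).2.2) ε hε
  refine ⟨C, fun x hx hZx hFx => ?_⟩
  have hxM : exv M x = exv M (exv K x) := rfl
  have h1 := hC x hx hZx (by
    intro i
    rw [hxM, eval_exv, Ne, map_eq_zero]
    exact hFx i)
  refine le_trans (le_of_eq (Finset.sum_congr rfl fun v hv => ?_)) h1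
  congr 1
  obtain ⟨ht, -, -⟩ := hwt v hv
  have hgv := (hg v hv).2
  have hn1 : 1 ≤ n := by omega
  have hxK : exv K x ≠ 0 := exv_ne hx
  have hcard : Nat.card {i // eval (exv M (y v)) (map (algebraMap K M) (F i)) = 0} =
      Nat.card {i // eval (y v) (F i) = 0} := by
    refine Nat.card_congr (Equiv.subtypeEquivRight fun i => ?_)
    rw [eval_exv, map_eq_zero]
  have hloc : ∀ i, loc (g v) (fun i => map (algebraMap K M) (F i)) d m' (exv M (y v))
      (exv M x) i = t v * loc (av (w v)) F d m (y v) (exv K x) i := by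
    intro i
    unfold loc
    rw [hxM, lam_ch ht hgv hn1 hxK _ (hFx i), ly_ch ht hgv hn1, hm'y]
    by_cases hd : d i = 1
    · rw [if_pos hd, if_pos hd]
    · rw [if_neg hd, if_neg hd, mul_min_of_nonneg _ _ ht.le]
      congr 1
      ring
  rw [card_nat, hcard, Finset.sum_congr rfl fun i _ => hloc i, ← Finset.mul_sum, hxM,
    ly_ch ht hgv hn1]
  ring

end final

end Pool.Agent.H7V1
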