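import Mathlib
import Pool.Agent.H7V1.Glob

set_option autoImplicit false

/-!
# Normal crossings divisors with components of arbitrary degrees on `ℙ^N`, near algebraic points

`D = ∑ D_i` is a divisor of `ℙ^N` over a number field `K ⊇ k` with strict normal crossings, the
components `D_i = {F_i = 0}` have arbitrary degrees. `P` is an arbitrary finite set of points of
`ℙ^N(K)`, for example all the points in which `N` components meet. For `y ∈ P` on `D_i` let
`m_i(y) ≥ 2` be the multiplicity at `y` of the section of `D_i` by its tangent hyperplane at `y`.

The theorem is Vojta's inequality for the rational points of `ℙ^N` over `k` and all finite sets `S` of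
places, in which the local heights of the components of degree at least two are cut off at `m_i(y)`
times the local height of the point `y` of `P` next to `x`, together with the multiple
`N - #{i : y ∈ D_i}` of that local height (this is the contribution of the places in `S` of the
exceptional divisor in Vojta's inequality for the blow-up of `P` and the divisor `D' + E`, `D'` the
strict transform of `D`). The components of degree one are not cut off. The exceptional set is a finite
set of hyperplanes over `k`, which depends neither on `S` nor on `ε`.
-/

namespace Pool.Agent.H7V1.TangentTruncation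

open NumberField IsDedekindDomain

/-- The places of a number field: the archimedean places and the primes. -/
abbrev Place (k : Type) [Field k] [NumberField k] : Type :=
  InfinitePlace k ⊕ HeightOneSpectrum (𝓞 k)

/-- The absolute value of a place: the usual one for an archimedean place, and `(N p) ^ (-ord_p x)`
for a prime `p`. -/
noncomputable def Place.value {k : Type} [Field k] [NumberField k] (v : Place k) (x : k) : ℝ :=
  match v with
  | Sum.inl w => w x
  | Sum.inr p => FinitePlace.mk p x

/-- The multiplicity: `1` for a real place, `2` for a complex place, `1` for a prime. -/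
noncomputable def Place.mult {k : Type} [Field k] [NumberField k] (v : Place k) : ℝ :=
  match v with
  | Sum.inl w => w.mult
  | Sum.inr _ => 1

variable {K : Type} [Field K] {N r : ℕ}

/-- `D = ∑ {F i = 0}` has strict normal crossings: at each point of `ℙ^N`, over each extension field,
the gradients of the equations of the components through the point are linearly independent. -/
def IsNormalCrossings (F : Fin r → MvPolynomial (Fin (N + 1)) K) : Prop :=
  ∀ (L : Type) [Field L] [Algebra K L] (x : Fin (N + 1) → L), x ≠ 0 →
    LinearIndependent L (fun (i : {i : Fin r // MvPolynomial.aeval x (F i) = 0})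
      (j : Fin (N + 1)) => MvPolynomial.aeval x (MvPolynomial.pderiv j (F i)))

/-- The section of the hypersurface `F = 0` by its tangent hyperplane at `y` has multiplicity at least
`m` at `y`: on all lines through `y` in the tangent hyperplane, over each extension field, `F` has a
zero of order at least `m` at `y`. -/
def HasContact (F : MvPolynomial (Fin (N + 1)) K) (y : Fin (N + 1) → K) (m : ℕ) : Prop :=
  ∀ (L : Type) [Field L] [Algebra K L] (z : Fin (N + 1) → L),
    ∑ j, MvPolynomial.aeval (fun i => algebraMap K L (y i)) (MvPolynomial.pderiv j F) * z j = 0 →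
    Polynomial.X ^ m ∣ MvPolynomial.aeval (fun j => Polynomial.C (algebraMap K L (y j)) +
      Polynomial.X * Polynomial.C (z j)) F

variable [NumberField K]

/-- The local height of the hypersurface `F = 0` of degree `d` at `x`. -/
noncomputable def height (w : Place K) (d : ℕ) (F : MvPolynomial (Fin (N + 1)) K)
    (x : Fin (N + 1) → K) : ℝ :=
  Real.log ((⨆ j, w.value (x j)) ^ d / w.value (MvPolynomial.eval x F))

/-- The local height of the point `y` at `x`. -/
noncomputable def pointHeight (w : Place K) (y x : Fin (N + 1) → K) : ℝ :=
  Real.log (⨆ j, w.value (x j)) + Real.log (⨆ j, w.value (y j)) -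
    Real.log (⨆ p : Fin (N + 1) × Fin (N + 1), w.value (x p.1 * y p.2 - x p.2 * y p.1))

/-- The contribution of the component `F = 0` of degree `d`: its local height, cut off at `m` times the
local height of the point `y` if `d ≠ 1`. -/
noncomputable def contribution (w : Place K) (d : ℕ) (F : MvPolynomial (Fin (N + 1)) K) (m : ℕ)
    (y x : Fin (N + 1) → K) : ℝ :=
  if d = 1 then height w d F x else min (height w d F x) (m * pointHeight w y x)

/-- Let `D = ∑ {F i = 0}` be a strict normal crossings divisor of `ℙ^N` over the number field `K ⊇ k`
with components of arbitrary degrees `d i`, `P` a finite set of points over `K`, and `m i y ≤ 2` or the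
section of `{F i = 0}` by its tangent hyperplane at `y` of multiplicity at least `m i y`, for `y ∈ P`
on `{F i = 0}`. There is a finite set `Z` of hyperplanes over `k` such that for all finite sets `S` of
places of `k`, all places `w v` of `K` above `v ∈ S`, all points `y v ∈ P` for `v ∈ S` and all `ε > 0`
the inequality `m_{S,D} + h_K ≤ ε h + C` holds for all points of `ℙ^N(k)` off `Z` and `D`, with
the cut off contributions of the components and `N - #{i : F i (y v) = 0}` times the local height of
`y v` in place of `m_{S,D}`. (All heights are relative to `k`, not divided by `[k : ℚ]`;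
`|.|_{w v} ^ t v` is the extension of `|.|_v` to `K`.) -/
theorem result (k K : Type) [Field k] [NumberField k] [Field K] [NumberField K] [Algebra k K]
    (N : ℕ) (hN : 1 ≤ N) {r : ℕ} (F : Fin r → MvPolynomial (Fin (N + 1)) K) (d : Fin r → ℕ)
    (hF : ∀ i, (F i).IsHomogeneous (d i)) (hnc : IsNormalCrossings F)
    (P : Finset (Fin (N + 1) → K)) (hP : ∀ y ∈ P, y ≠ 0) (m : Fin r → (Fin (N + 1) → K) → ℕ)
    (hm : ∀ y ∈ P, ∀ i, MvPolynomial.eval y (F i) = 0 → m i y ≤ 2 ∨ HasContact (F i) y (m i y)) :
    ∃ Z : Finset (Fin (N + 1) → k), (∀ z ∈ Z, z ≠ 0) ∧
      ∀ (S : Finset (Place k)) (w : Place k → Place K) (t : Place k → ℝ)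
        (y : Place k → Fin (N + 1) → K),
        (∀ v ∈ S, 0 < t v ∧ (∀ a : k, (w v).value (algebraMap k K a) ^ t v = v.value a) ∧
          y v ∈ P) →
      ∀ ε : ℝ, 0 < ε → ∃ C : ℝ, ∀ x : Fin (N + 1) → k, x ≠ 0 →
        (∀ z ∈ Z, ∑ j, z j * x j ≠ 0) →
        (∀ i, MvPolynomial.eval (fun j => algebraMap k K (x j)) (F i) ≠ 0) →
        ∑ v ∈ S, v.mult * (t v * (∑ i, contribution (w v) (d i) (F i) (m i (y v)) (y v)
          (fun j => algebraMap k K (x j)) +
          (N - Nat.card {i // MvPolynomial.eval (y v) (F i) = 0} : ℝ) *
            pointHeight (w v) (y v) (fun j => algebraMap k K (x j)))) -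
          (N + 1) * Height.logHeight x ≤ ε * Height.logHeight x + C := by
  classical
  obtain ⟨Z, hZ, hmain⟩ := H7V1.globT (k := k) (K := K) (n := N + 1) (by omega) hF hnc hP hm
  refine ⟨Z, hZ, fun S w t y hwt ε hε => ?_⟩
  have hval : ∀ (k : Type) [Field k] [NumberField k] (v : Place k) (a : k),
      v.value a = Pool.Agent.W180.OP.av v a := by
    intro k _ _ v a
    rcases v with v | p
    · rfl
    · rfl
  have hmul : ∀ v : Place k, v.mult = Pool.Agent.W180.OP.wt v := by
    intro v
    rcases v with v | p
    · rfl
    · rfl
  obtain ⟨C, hC⟩ := hmain S w t y (fun v hv => ⟨(hwt v hv).1, fun a => by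
    have := (hwt v hv).2.1 a
    rw [hval, hval] at this
    exact this, (hwt v hv).2.2⟩) ε hε
  refine ⟨C, fun x hx hZx hFx => ?_⟩
  have h1 := hC x hx hZx hFx
  have hpt : ∀ (w : Place K) (y x : Fin (N + 1) → K), pointHeight w y x =
      H7V1.ly (Pool.Agent.W180.OP.av w) y x := by
    intro w y x
    unfold pointHeight
    simp only [hval]
    rfl
  have hht : ∀ (w : Place K) (d : ℕ) (F : MvPolynomial (Fin (N + 1)) K) (x : Fin (N + 1) → K),
      height w d F x = Pool.Agent.W180.OP.lam (Pool.Agent.W180.OP.av w) d F x := by
    intro w d F x
    unfold height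
    simp only [hval]
    rfl
  have hcon : ∀ v i, contribution (w v) (d i) (F i) (m i (y v)) (y v)
      (fun j => algebraMap k K (x j)) = H7V1.loc (Pool.Agent.W180.OP.av (w v)) F d m (y v)
        (R405.exv K x) i := by
    intro v i
    unfold contribution H7V1.loc
    rw [hht, hpt]
    rfl
  simp only [hcon, hpt, hmul]
  have h2 : ((N + 1 : ℕ) : ℝ) - 1 = N := by
    push_cast
    ring
  rw [h2] at h1
  push_cast at h1
  have h3 : (fun j => algebraMap k K (x j)) = R405.exv K x := rfl
  rw [h3]
  linarith

end Pool.Agent.H7V1.TangentTruncation
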